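import Pool.Agent.Lib.MP_4d246d_lc.Rand.Main

/-!
# The trees that are used, and their parameters
-/

namespace Pool.Agent.MP4d246d.Rand

open Finset

/-- `k + 1` copies of a tree. -/
def comb (T : Shape) : ℕ → Shape
  | 0 => T
  | k + 1 => .node T (comb T k)

/-- The balanced tree with branching number `M + 1`. -/
def mk (M : ℕ) : ℕ → Shape
  | 0 => .leaf
  | h + 1 => comb (mk M h) M

theorem size_comb (T : Shape) (k : ℕ) : (comb T k).size = (k + 1) * T.size := by
  induction k with
  | zero => rw [comb]; ring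
  | succ k ih =>
    show T.size + (comb T k).size = _
    rw [ih]
    ring

theorem size_mk (M h : ℕ) : (mk M h).size = (M + 1) ^ h := by
  induction h with
  | zero => rfl
  | succ h ih => rw [mk, size_comb, ih, pow_succ]; ring

/-- The level of a number. -/
def lev (m H i : ℕ) : ℕ := ((range H).filter fun l => m ^ (l + 1) ∣ i).card

theorem le_lev {m H i h : ℕ} (hh : h ≤ H) (hi : m ^ h ∣ i) : h ≤ lev m H i := by
  calc h = (range h).card := (card_range h).symm
    _ ≤ _ := by
      apply card_le_card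
      intro l hl
      rw [mem_range] at hl
      rw [mem_filter, mem_range]
      exact ⟨by omega, (pow_dvd_pow m (by omega)).trans hi⟩

theorem lev_le {m H i h : ℕ} (hi : ¬ m ^ (h + 1) ∣ i) : lev m H i ≤ h := by
  calc lev m H i ≤ (range h).card := by
        apply card_le_card
        intro l hl
        rw [mem_filter, mem_range] at hl
        rw [mem_range]
        by_contra hlt
        exact hi ((pow_dvd_pow m (by omega)).trans hl.2)
    _ = h := card_range h

theorem levOK_comb {M H h : ℕ} (hh : h ≤ H)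
    (ih : ∀ o, (M + 1) ^ h ∣ o → LevOK (lev (M + 1) H) (mk M h) o) (k : ℕ) :
    ∀ o, (M + 1) ^ h ∣ o → LevOK (lev (M + 1) H) (comb (mk M h) k) o := by
  induction k with
  | zero => exact ih
  | succ k ihk =>
    intro o ho
    have hs := size_mk M h
    have hnext : (M + 1) ^ h ∣ o + (mk M h).size := by
      rw [hs]
      exact (Nat.dvd_add_right ho).mpr dvd_rfl
    refine ⟨?_, ih o ho, ihk _ hnext⟩
    intro i h1 h2
    rw [hs] at h2
    have h3 : ¬ (M + 1) ^ h ∣ i := by
      intro h4
      have h5 : (M + 1) ^ h ∣ i - o := Nat.dvd_sub h4 ho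
      have h6 := Nat.le_of_dvd (by omega) h5
      omega
    have h7 : h ≤ lev (M + 1) H (o + (mk M h).size) := le_lev hh hnext
    have h8 : lev (M + 1) H i < h := by
      rcases Nat.eq_zero_or_pos h with h0 | h0
      · exact absurd (by rw [h0, pow_zero]; exact one_dvd i) h3
      · have := lev_le (m := M + 1) (H := H) (i := i) (h := h - 1) (by
          rw [Nat.sub_add_cancel h0]; exact h3)
        omega
    omega

theorem levOK_mk {M H : ℕ} (h : ℕ) (hh : h ≤ H) :
    ∀ o, (M + 1) ^ h ∣ o → LevOK (lev (M + 1) H) (mk M h) o := by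
  induction h with
  | zero => intro o _; trivial
  | succ h ih =>
    intro o ho
    exact levOK_comb (by omega) (ih (by omega)) M o ((pow_dvd_pow _ (by omega)).trans ho)

/-- The weight of a path in a comb. -/
theorem pw_comb {M h W s : ℕ} {σ : ℕ → ℕ} (hM : 1 ≤ M)
    (hσ : ∀ i, ¬ (M + 1) ^ (h + 1) ∣ i → σ i ≤ s)
    (ih : ∀ o, (M + 1) ^ h ∣ o → pw σ (mk M h) o ≤ W) (k : ℕ) :
    ∀ i base, i + k = M → (M + 1) ^ (h + 1) ∣ base →
      pw σ (comb (mk M h) k) (base + i * (M + 1) ^ h) ≤ k * s + W := by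
  have hpos : 0 < (M + 1) ^ h := Nat.pow_pos (by omega)
  have hdvd : ∀ i base, (M + 1) ^ (h + 1) ∣ base → (M + 1) ^ h ∣ base + i * (M + 1) ^ h := by
    intro i base hb
    exact (Nat.dvd_add_right ((pow_dvd_pow _ (by omega)).trans hb)).mpr (Dvd.intro_left i rfl)
  induction k with
  | zero =>
    intro i base _ hb
    rw [comb]
    have := ih _ (hdvd i base hb)
    omega
  | succ k ihk =>
    intro i base hik hb
    have h1 := ih _ (hdvd i base hb)
    have h2 := ihk (i + 1) base (by omega) hb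
    have e : base + i * (M + 1) ^ h + (mk M h).size = base + (i + 1) * (M + 1) ^ h := by
      rw [size_mk]; ring
    have h3 : σ (base + (i + 1) * (M + 1) ^ h) ≤ s := by
      apply hσ
      intro h4
      have h5 : (M + 1) ^ (h + 1) ∣ (i + 1) * (M + 1) ^ h := (Nat.dvd_add_right hb).mp h4
      rw [pow_succ, mul_comm] at h5
      have h6 : M + 1 ∣ i + 1 := Nat.dvd_of_mul_dvd_mul_right hpos h5
      have h7 := Nat.le_of_dvd (by omega) h6
      omega
    show σ (base + i * (M + 1) ^ h + (mk M h).size) + max (pw σ (mk M h) (base + i * (M + 1) ^ h))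
      (pw σ (comb (mk M h) k) (base + i * (M + 1) ^ h + (mk M h).size)) ≤ (k + 1) * s + W
    rw [e]
    have h8 : max (pw σ (mk M h) (base + i * (M + 1) ^ h))
        (pw σ (comb (mk M h) k) (base + (i + 1) * (M + 1) ^ h)) ≤ k * s + W :=
      max_le (by omega) h2
    have h9 : (k + 1) * s = k * s + s := by ring
    omega

/-- The weight of a path in the tree. -/
theorem pw_mk {M H t : ℕ} (hM : 1 ≤ M) (h : ℕ) : ∀ o, (M + 1) ^ h ∣ o →
    127 * pw (fun i => 256 * t * 128 ^ lev (M + 1) H i) (mk M h) o ≤ M * 256 * t * 128 ^ h := by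
  induction h with
  | zero =>
    intro o _
    show 127 * 0 ≤ _
    simp
  | succ h ih =>
    intro o ho
    have h1 := pw_comb (M := M) (h := h) (W := M * 256 * t * 128 ^ h / 127)
      (s := 256 * t * 128 ^ h) (σ := fun i => 256 * t * 128 ^ lev (M + 1) H i) hM
      (fun i hi => Nat.mul_le_mul_left _ (Nat.pow_le_pow_right (by norm_num) (lev_le hi)))
      (fun o ho => by
        rw [Nat.le_div_iff_mul_le (by norm_num), mul_comm]
        exact ih o ho) M 0 o (by omega) ho
    rw [zero_mul, add_zero] at h1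
    rw [mk]
    have h2 := Nat.div_mul_le_self (M * 256 * t * 128 ^ h) 127
    have h3 : M * 256 * t * 128 ^ (h + 1) = 127 * (M * (256 * t * 128 ^ h)) +
        M * 256 * t * 128 ^ h := by ring
    omega

/-- The parameters. -/
theorem params {n K t M H : ℕ} (hM : 1 ≤ M) (hK : M * 2 ^ (14 * H) ≤ K)
    (h1 : 16 * t * K ≤ n) (h2 : n ≤ 32 * t * K) :
    Params n K t (mk M H) (fun i => 128 ^ lev (M + 1) H i) (lev (M + 1) H)
      (fun i => 256 * t * 128 ^ lev (M + 1) H i) := by
  have hKpos : 0 < K := lt_of_lt_of_le (Nat.mul_pos hM (Nat.pow_pos (by norm_num))) hK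
  have hlev : ∀ i, 0 < i → i < (mk M H).size → lev (M + 1) H i + 1 ≤ H := by
    intro i hi hiS
    rw [size_mk] at hiS
    rcases Nat.eq_zero_or_pos H with h0 | h0
    · rw [h0, pow_zero] at hiS
      omega
    · have := lev_le (m := M + 1) (H := H) (i := i) (h := H - 1) (by
        rw [Nat.sub_add_cancel h0]
        intro h3
        have := Nat.le_of_dvd hi h3
        omega)
      omega
  have hpw := pw_mk (M := M) (H := H) (t := t) hM H 0 (dvd_zero _)
  set P := pw (fun i => 256 * t * 128 ^ lev (M + 1) H i) (mk M H) 0 with hP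
  have e7 : (128 : ℕ) ^ H * 128 ^ H = 2 ^ (14 * H) := by
    rw [← mul_pow, show (128 * 128 : ℕ) = 2 ^ 14 by norm_num, ← pow_mul]
  have h128 : 1 ≤ 128 ^ H := Nat.one_le_pow _ _ (by norm_num)
  refine ⟨hKpos, h1, ?_, ?_, ?_, ?_, ?_, ?_, ?_, ?_⟩
  · intro i _ _
    exact Nat.pow_pos (by norm_num)
  · intro i hi hiS
    have h3 : (128 : ℕ) ^ lev (M + 1) H i ≤ 128 ^ H :=
      Nat.pow_le_pow_right (by norm_num) (by have := hlev i hi hiS; omega)
    calc (128 : ℕ) ^ lev (M + 1) H i ≤ 1 * (128 ^ H * 1) := by rw [one_mul, mul_one]; exact h3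
      _ ≤ M * (128 ^ H * 128 ^ H) := Nat.mul_le_mul hM (Nat.mul_le_mul_left _ h128)
      _ = M * 2 ^ (14 * H) := by rw [e7]
      _ ≤ K := hK
  · intro i P' _ _ _ hl
    calc 128 * 128 ^ lev (M + 1) H i = 128 ^ (lev (M + 1) H i + 1) := by rw [pow_succ]; ring
      _ ≤ 128 ^ lev (M + 1) H P' := Nat.pow_le_pow_right (by norm_num) hl
  · exact levOK_mk H le_rfl 0 (dvd_zero _)
  · intro i _
    have h3 : 1 ≤ 128 ^ lev (M + 1) H i := Nat.one_le_pow _ _ (by norm_num)
    nlinarith
  · intro i _
    calc 8 * 128 ^ lev (M + 1) H i * n ≤ 8 * 128 ^ lev (M + 1) H i * (32 * t * K) :=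
          Nat.mul_le_mul_left _ h2
      _ = 256 * t * 128 ^ lev (M + 1) H i * K := by ring
  · -- path
    have h3 : M * 256 * t * 128 ^ H ≤ 16 * (16 * t * K) := by
      calc M * 256 * t * 128 ^ H = 256 * t * (M * (128 ^ H * 1)) := by ring
        _ ≤ 256 * t * (M * (128 ^ H * 128 ^ H)) :=
            Nat.mul_le_mul_left _ (Nat.mul_le_mul_left _ (Nat.mul_le_mul_left _ h128))
        _ = 256 * t * (M * 2 ^ (14 * H)) := by rw [e7]
        _ ≤ 256 * t * K := Nat.mul_le_mul_left _ hK
        _ = 16 * (16 * t * K) := by ring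
    omega
  · intro i hi hiS
    have h3 : 128 * 128 ^ lev (M + 1) H i ≤ 128 ^ H := by
      calc 128 * 128 ^ lev (M + 1) H i = 128 ^ (lev (M + 1) H i + 1) := by rw [pow_succ]; ring
        _ ≤ 128 ^ H := Nat.pow_le_pow_right (by norm_num) (hlev i hi hiS)
    have h4 : 127 * (128 * (32 * P * 128 ^ lev (M + 1) H i)) ≤ 127 * (128 * (t * K)) := by
      calc 127 * (128 * (32 * P * 128 ^ lev (M + 1) H i))
          = 32 * (127 * P) * (128 * 128 ^ lev (M + 1) H i) := by ring
        _ ≤ 32 * (M * 256 * t * 128 ^ H) * 128 ^ H :=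
            Nat.mul_le_mul (Nat.mul_le_mul_left _ hpw) h3
        _ = 8192 * t * (M * (128 ^ H * 128 ^ H)) := by ring
        _ = 8192 * t * (M * 2 ^ (14 * H)) := by rw [e7]
        _ ≤ 8192 * t * K := Nat.mul_le_mul_left _ hK
        _ ≤ 127 * (128 * (t * K)) := by
            have : 8192 * t * K = 8192 * (t * K) := by ring
            omega
    exact Nat.le_of_mul_le_mul_left (Nat.le_of_mul_le_mul_left h4 (by norm_num)) (by norm_num)

end Pool.Agent.MP4d246d.Rand
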