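import Mathlib

/-!
# Abstract objective functions on the cube and pivot rules with full memory

Vertices of the `n`-cube, abstract objective functions, what a pivot rule sees, and the run of a
pivot rule.
-/

namespace Pool.Agent.MP4d246d.Rand

/-- The vertices of the `n`-cube. -/
abbrev Vertex (n : ℕ) : Type := Fin n → Bool

/-- The other end of the edge of the cube at `v` in direction `c`. -/
def nb {n : ℕ} (v : Vertex n) (c : Fin n) : Vertex n := Function.update v c (!v c)

/-- `f` is an abstract objective function on the `n`-cube: its values are distinct, and on every
face (the face through `v` with the set `D` of free directions) a vertex `v` that is better than all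
its neighbours in the face is the best vertex of the face. -/
def AbstractObjective {n : ℕ} (f : Vertex n → ℝ) : Prop :=
  Function.Injective f ∧
    ∀ (D : Finset (Fin n)) (v w : Vertex n), (∀ c ∉ D, w c = v c) →
      (∀ c ∈ D, f (nb v c) < f v) → f w ≤ f v

/-- The improving directions at the vertex `v`. -/
noncomputable def improving {n : ℕ} (f : Vertex n → ℝ) (v : Vertex n) : Finset (Fin n) :=
  Finset.univ.filter fun c => f v < f (nb v c)

/-- What is seen at one visited vertex: the vertex, its value, the improving directions. -/
abbrev Entry (n : ℕ) : Type := Vertex n × ℝ × Finset (Fin n)

/-- Everything seen so far, the latest visited vertex first. -/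
abbrev History (n : ℕ) : Type := List (Entry n)

/-- A deterministic pivot rule with unlimited memory: an arbitrary function that picks, from
everything seen so far, one of the improving directions at the current vertex. -/
structure PivotRule (n : ℕ) where
  /-- the direction that is picked -/
  pick : History n → Fin n
  /-- it is improving, if there is an improving direction -/
  pick_mem : ∀ (v : Vertex n) (x : ℝ) (S : Finset (Fin n)) (l : History n),
    S.Nonempty → pick ((v, x, S) :: l) ∈ S

/-- What is seen at the vertex `v`. -/
noncomputable def see {n : ℕ} (f : Vertex n → ℝ) (v : Vertex n) : Entry n :=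
  (v, f v, improving f v)

open Classical in
/-- One step: follow the picked direction; at an optimal vertex, stop. -/
noncomputable def step {n : ℕ} (ρ : PivotRule n) (f : Vertex n → ℝ) : History n → History n
  | [] => []
  | (v, x, S) :: l =>
      if S.Nonempty then see f (nb v (ρ.pick ((v, x, S) :: l))) :: (v, x, S) :: l
      else (v, x, S) :: l

/-- The history after at most `t` pivots from the vertex `v₀`. Its entries are the visited
vertices, so its length is one more than the number of pivots made. -/
noncomputable def run {n : ℕ} (ρ : PivotRule n) (f : Vertex n → ℝ) (v₀ : Vertex n) :
    ℕ → History n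
  | 0 => [see f v₀]
  | t + 1 => step ρ f (run ρ f v₀ t)

/-- The rule makes at least `x` pivots, if it is started at the vertex `v₀`. -/
def AtLeast {n : ℕ} (x : ℝ) (ρ : PivotRule n) (f : Vertex n → ℝ) (v₀ : Vertex n) : Prop :=
  ∀ N : ℕ, (N : ℝ) ≤ x → (run ρ f v₀ N).length = N + 1

end Pool.Agent.MP4d246d.Rand
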