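import Pool.Agent.Lib.MP_4d246d_lc.Rand.Leaf

/-!
# On which data the contexts of the leaves depend
-/

namespace Pool.Agent.MP4d246d.Rand

open Finset

variable {n : ℕ} {B B' : ℕ → Finset (Fin n)} {r r' : ℕ → Vertex n}

theorem cl_congr (S : Shape) : ∀ (o : ℕ) (A : Finset (Fin n)),
    (∀ i, o < i → i < o + S.size → B i = B' i) → cl B S o A = cl B' S o A := by
  induction S with
  | leaf => intro o A _; rfl
  | node S₁ S₂ ih₁ ih₂ =>
    intro o A h
    have h' : ∀ i, o < i → i < o + (S₁.size + S₂.size) → B i = B' i := h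
    have hs₁ := S₁.size_pos
    have hs₂ := S₂.size_pos
    rw [cl, cl, ih₁ o A (fun i h1 h2 => h' i h1 (by omega)), h' (o + S₁.size) (by omega) (by omega)]
    exact ih₂ _ _ (fun i h1 h2 => h' i (by omega) (by omega))

theorem lt_congr (S : Shape) : ∀ (o : ℕ) (A : Finset (Fin n)) (x : Vertex n),
    (∀ i, o < i → i < o + S.size → B i = B' i) → (∀ i, i < o + S.size → r i = r' i) →
    lt B r S o A x = lt B' r' S o A x := by
  induction S with
  | leaf =>
    intro o A x _ h
    have : r o = r' o := h o (Nat.lt_succ_self o)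
    rw [lt, lt, this]
  | node S₁ S₂ ih₁ ih₂ =>
    intro o A x h hr
    have h' : ∀ i, o < i → i < o + (S₁.size + S₂.size) → B i = B' i := h
    have hr' : ∀ i, i < o + (S₁.size + S₂.size) → r i = r' i := hr
    have hs₁ := S₁.size_pos
    have hs₂ := S₂.size_pos
    rw [lt, lt, cl_congr S₁ o A (fun i h1 h2 => h' i h1 (by omega)),
      h' (o + S₁.size) (by omega) (by omega),
      ih₁ o A x (fun i h1 h2 => h' i h1 (by omega)) (fun i h1 => hr' i (by omega))]
    exact ih₂ _ _ _ (fun i h1 h2 => h' i (by omega) (by omega)) (fun i h1 => hr' i (by omega))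

theorem trap_congr (S₁ : Shape) (o : ℕ) (A : Finset (Fin n))
    (h : ∀ i, o < i → i ≤ o + S₁.size → B i = B' i) : trap B S₁ o A = trap B' S₁ o A := by
  have hs₁ := S₁.size_pos
  rw [trap, trap, cl_congr S₁ o A (fun i h1 h2 => h i h1 h2.le), h _ (by omega) le_rfl]

/-- The closed set and the values on it. -/
theorem Ax_congr (S : Shape) : ∀ (o : ℕ) (C C' : Ctx n) (j : ℕ), C.A = C'.A → C.x = C'.x →
    (∀ i, i ≤ j → B i = B' i) → (∀ i, i < j → r i = r' i) →
    (ctxAt B r S o C j).A = (ctxAt B' r' S o C' j).A ∧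
      (ctxAt B r S o C j).x = (ctxAt B' r' S o C' j).x := by
  induction S with
  | leaf => intro o C C' j hA hx _ _; exact ⟨hA, hx⟩
  | node S₁ S₂ ih₁ ih₂ =>
    intro o C C' j hA hx hB hr
    by_cases hj : j < o + S₁.size
    · rw [ctxAt_left hj, ctxAt_left hj]
      exact ih₁ _ _ _ _ hA hx hB hr
    · rw [ctxAt_right hj, ctxAt_right hj]
      have h1 : trap B S₁ o C.A = trap B' S₁ o C'.A := by
        rw [hA]
        exact trap_congr S₁ o _ (fun i _ h2 => hB i (by omega))
      have h2 : lt B r S₁ o C.A C.x = lt B' r' S₁ o C'.A C'.x := by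
        rw [hA, hx]
        exact lt_congr S₁ o _ _ (fun i _ h2 => hB i (by omega)) (fun i h2 => hr i (by omega))
      apply ih₂ _ _ _ _ _ _ hB hr
      · show C.A ∪ trap B S₁ o C.A = C'.A ∪ trap B' S₁ o C'.A
        rw [h1, hA]
      · show mix (trap B S₁ o C.A) (lt B r S₁ o C.A C.x) C.x =
          mix (trap B' S₁ o C'.A) (lt B' r' S₁ o C'.A C'.x) C'.x
        rw [h1, h2, hx]

theorem off_congr (S : Shape) : ∀ (o : ℕ) (C C' : Ctx n) (j : ℕ), C.off = C'.off →
    (ctxAt B r S o C j).off = (ctxAt B' r' S o C' j).off := by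
  induction S with
  | leaf => intro o C C' j h; exact h
  | node S₁ S₂ ih₁ ih₂ =>
    intro o C C' j h
    by_cases hj : j < o + S₁.size
    · rw [ctxAt_left hj, ctxAt_left hj]
      exact ih₁ _ _ _ _ h
    · rw [ctxAt_right hj, ctxAt_right hj]
      apply ih₂
      show C.off + bd n S₁ = C'.off + bd n S₁
      rw [h]

/-- The entries for the trap with number `P` do not depend on the sets `B i`, `P ≤ i`. -/
theorem F_congr (P : ℕ) (S : Shape) : ∀ (o : ℕ) (C C' : Ctx n) (j : ℕ), C.A = C'.A →
    (∀ q ∈ C.F, o + S.size ≤ q.1) → (∀ R, (P, R) ∈ C.F → (P, R) ∈ C'.F) → j < P →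
    (∀ i, i < P → B i = B' i) →
    ∀ R, (P, R) ∈ (ctxAt B r S o C j).F → (P, R) ∈ (ctxAt B' r' S o C' j).F := by
  induction S with
  | leaf => intro o C C' j _ _ h _ _; exact h
  | node S₁ S₂ ih₁ ih₂ =>
    intro o C C' j hA hge hF hjP hB
    have hge' : ∀ q ∈ C.F, o + (S₁.size + S₂.size) ≤ q.1 := hge
    have hs₁ := S₁.size_pos
    have hs₂ := S₂.size_pos
    have htrap : o + S₁.size < P → trap B S₁ o C.A = trap B' S₁ o C'.A := by
      intro h
      rw [hA]
      exact trap_congr S₁ o _ (fun i _ h2 => hB i (by omega))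
    by_cases hj : j < o + S₁.size
    · rw [ctxAt_left hj, ctxAt_left hj]
      apply ih₁
      · exact hA
      · intro q hq
        rcases List.mem_cons.mp hq with rfl | hq
        · exact le_rfl
        · obtain ⟨q', hq', rfl⟩ := List.mem_map.mp hq
          have := hge' q' hq'
          show o + S₁.size ≤ q'.1
          omega
      · intro R hR
        rcases List.mem_cons.mp hR with h | h
        · have h1 : P = o + S₁.size := congrArg Prod.fst h
          have h2 : R = cl B S₁ o C.A := congrArg Prod.snd h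
          refine List.mem_cons.mpr (Or.inl ?_)
          rw [h1, h2, hA]
          exact Prod.ext rfl (cl_congr S₁ o _ (fun i _ h3 => hB i (by omega)))
        · obtain ⟨q', hq', h3⟩ := List.mem_map.mp h
          have h1 : q'.1 = P := congrArg Prod.fst h3
          have h2 : q'.2 ∪ trap B S₁ o C.A = R := congrArg Prod.snd h3
          have h4 := hge' q' hq'
          refine List.mem_cons.mpr (Or.inr (List.mem_map.mpr ⟨q', ?_, ?_⟩))
          · have : q' = (P, q'.2) := Prod.ext h1 rfl
            rw [this]
            apply hF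
            rw [← this]
            exact hq'
          · rw [← htrap (by omega)]
            exact h3
      · exact hjP
      · exact hB
    · rw [ctxAt_right hj, ctxAt_right hj]
      apply ih₂
      · show C.A ∪ trap B S₁ o C.A = C'.A ∪ trap B' S₁ o C'.A
        rw [htrap (by omega), hA]
      · intro q hq
        obtain ⟨q', hq', rfl⟩ := List.mem_map.mp hq
        have := hge' q' hq'
        show o + S₁.size + S₂.size ≤ q'.1
        omega
      · intro R hR
        obtain ⟨q', hq', h3⟩ := List.mem_map.mp hR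
        have h1 : q'.1 = P := congrArg Prod.fst h3
        refine List.mem_map.mpr ⟨q', ?_, ?_⟩
        · have : q' = (P, q'.2) := Prod.ext h1 rfl
          rw [this]
          apply hF
          rw [← this]
          exact hq'
        · rw [← htrap (by omega)]
          exact h3
      · exact hjP
      · exact hB

end Pool.Agent.MP4d246d.Rand
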