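import Mathlib

/-!
# Counting lemmas: tails of binomial distributions, resampling, union bounds
-/

namespace Pool.Agent.MP4d246d.Rand

open Finset

variable {n : ℕ} {α : Type} [Fintype α] [DecidableEq α]

/-- The generating function. -/
theorem gen (S : Finset (Fin n)) (Q : Fin n → Finset α) (z : ℝ) :
    ∑ f : Fin n → α, z ^ (S.filter fun c => f c ∈ Q c).card =
      ∏ c : Fin n, (if c ∈ S then (Fintype.card α : ℝ) + (z - 1) * (Q c).card
        else (Fintype.card α : ℝ)) := by
  have h1 : ∀ f : Fin n → α, z ^ (S.filter fun c => f c ∈ Q c).card =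
      ∏ c : Fin n, (if c ∈ S ∧ f c ∈ Q c then z else 1) := by
    intro f
    rw [prod_ite, prod_const_one, mul_one, prod_const]
    congr 1
    congr 1
    ext c
    simp
  have h2 : ∀ c : Fin n, (if c ∈ S then (Fintype.card α : ℝ) + (z - 1) * (Q c).card
        else (Fintype.card α : ℝ)) = ∑ x : α, (if c ∈ S ∧ x ∈ Q c then z else 1) := by
    intro c
    by_cases hc : c ∈ S
    · simp only [hc, if_true, true_and]
      rw [sum_ite, sum_const, sum_const, nsmul_eq_mul, nsmul_eq_mul, mul_one]
      have h3 : (univ.filter fun x => x ∈ Q c) = Q c := by ext x; simp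
      have h4 : ((univ.filter fun x => x ∉ Q c).card : ℝ) = Fintype.card α - (Q c).card := by
        have h5 : (univ.filter fun x => x ∉ Q c) = (Q c)ᶜ := by ext x; simp
        rw [h5, card_compl, Nat.cast_sub (card_le_univ _)]
      rw [h3, h4]
      ring
    · simp [hc]
  rw [prod_congr rfl (fun c _ => h2 c), prod_univ_sum, Fintype.piFinset_univ]
  exact sum_congr rfl (fun f _ => h1 f)

/-- A bound of the generating function. -/
theorem gen_le (S : Finset (Fin n)) (Q : Fin n → Finset α) (z u : ℝ) (hz : 0 ≤ z)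
    (h : ∀ c ∈ S, (Fintype.card α : ℝ) + (z - 1) * (Q c).card ≤ Fintype.card α * Real.exp u) :
    ∑ f : Fin n → α, z ^ (S.filter fun c => f c ∈ Q c).card ≤
      (Fintype.card α : ℝ) ^ n * Real.exp (u * S.card) := by
  rw [gen]
  have hnn : ∀ c ∈ S, 0 ≤ (Fintype.card α : ℝ) + (z - 1) * (Q c).card := by
    intro c _
    have h1 : ((Q c).card : ℝ) ≤ Fintype.card α := by exact_mod_cast card_le_univ _
    have h2 : (0 : ℝ) ≤ (Q c).card := Nat.cast_nonneg _
    nlinarith
  calc ∏ c : Fin n, (if c ∈ S then (Fintype.card α : ℝ) + (z - 1) * (Q c).card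
        else (Fintype.card α : ℝ))
      ≤ ∏ c : Fin n, ((Fintype.card α : ℝ) * (if c ∈ S then Real.exp u else 1)) := by
        apply prod_le_prod
        · intro c _
          by_cases hc : c ∈ S
          · rw [if_pos hc]; exact hnn c hc
          · rw [if_neg hc]; exact Nat.cast_nonneg _
        · intro c _
          by_cases hc : c ∈ S
          · rw [if_pos hc, if_pos hc]; exact h c hc
          · rw [if_neg hc, if_neg hc, mul_one]
    _ = (Fintype.card α : ℝ) ^ n * Real.exp (u * S.card) := by
        rw [prod_mul_distrib, prod_const, card_univ, Fintype.card_fin]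
        congr 1
        rw [prod_ite, prod_const_one, mul_one, prod_const]
        have : (univ.filter fun c => c ∈ S) = S := by ext c; simp
        rw [this, mul_comm, Real.exp_nat_mul]

/-- The lower tail. -/
theorem tail_low [Nonempty α] (S : Finset (Fin n)) (Q : Fin n → Finset α) (a t : ℕ)
    (hQ : ∀ c ∈ S, a ≤ (Q c).card) (h : 4 * t * Fintype.card α ≤ a * S.card) :
    2 ^ t * (univ.filter fun f : Fin n → α => (S.filter fun c => f c ∈ Q c).card ≤ t).card ≤
      Fintype.card (Fin n → α) := by
  have hα : (0 : ℝ) < Fintype.card α := by exact_mod_cast Fintype.card_pos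
  set Bad := univ.filter fun f : Fin n → α => (S.filter fun c => f c ∈ Q c).card ≤ t with hBad
  have h1 := gen_le S Q (1 / 4) (-(3 / 4) * a / Fintype.card α) (by norm_num) (by
    intro c hc
    have h2 := Real.add_one_le_exp (-(3 / 4) * a / Fintype.card α : ℝ)
    have h3 : (Fintype.card α : ℝ) * (-(3 / 4) * a / Fintype.card α + 1) ≤
        Fintype.card α * Real.exp (-(3 / 4) * a / Fintype.card α) :=
      mul_le_mul_of_nonneg_left h2 hα.le
    have h4 : (Fintype.card α : ℝ) * (-(3 / 4) * a / Fintype.card α + 1) =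
        Fintype.card α - 3 / 4 * a := by
      field_simp
      ring
    have h5 : (a : ℝ) ≤ (Q c).card := by exact_mod_cast hQ c hc
    rw [h4] at h3
    linarith)
  have h2 : (Bad.card : ℝ) * (1 / 4) ^ t ≤
      ∑ f : Fin n → α, (1 / 4 : ℝ) ^ (S.filter fun c => f c ∈ Q c).card := by
    calc (Bad.card : ℝ) * (1 / 4) ^ t = ∑ f ∈ Bad, (1 / 4 : ℝ) ^ t := by
          rw [sum_const, nsmul_eq_mul]
      _ ≤ ∑ f ∈ Bad, (1 / 4 : ℝ) ^ (S.filter fun c => f c ∈ Q c).card := by
          apply sum_le_sum
          intro f hf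
          rw [hBad, mem_filter] at hf
          exact pow_le_pow_of_le_one (by norm_num) (by norm_num) hf.2
      _ ≤ _ := by
          apply sum_le_sum_of_subset_of_nonneg (subset_univ _)
          intro f _ _
          positivity
  have h3 : -(3 / 4) * (a : ℝ) / Fintype.card α * S.card ≤ -(3 * t) := by
    have h4 : (4 * t * Fintype.card α : ℝ) ≤ a * S.card := by exact_mod_cast h
    rw [div_mul_eq_mul_div, div_le_iff₀ hα]
    linarith
  have h4 : Real.exp (-(3 / 4) * (a : ℝ) / Fintype.card α * S.card) ≤ (1 / 8) ^ t := by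
    calc Real.exp (-(3 / 4) * (a : ℝ) / Fintype.card α * S.card) ≤ Real.exp (-(3 * t)) :=
          Real.exp_le_exp.mpr h3
      _ = (Real.exp (-3)) ^ t := by
          rw [← Real.exp_nat_mul]
          congr 1
          ring
      _ ≤ (1 / 8) ^ t := by
          apply pow_le_pow_left₀ (Real.exp_pos _).le
          rw [Real.exp_neg, ← one_div]
          apply one_div_le_one_div_of_le (by norm_num)
          have h5 : (2 : ℝ) ≤ Real.exp 1 := by
            have := Real.add_one_le_exp (1 : ℝ)
            linarith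
          calc (8 : ℝ) = 2 ^ 3 := by norm_num
            _ ≤ (Real.exp 1) ^ 3 := pow_le_pow_left₀ (by norm_num) h5 3
            _ = Real.exp 3 := by rw [← Real.exp_nat_mul]; norm_num
  have h5 : (Bad.card : ℝ) * (1 / 4) ^ t ≤ (Fintype.card α : ℝ) ^ n * (1 / 8) ^ t :=
    h2.trans (h1.trans (mul_le_mul_of_nonneg_left h4 (by positivity)))
  have h6 : (2 : ℝ) ^ t * Bad.card ≤ (Fintype.card α : ℝ) ^ n := by
    have h7 : (8 : ℝ) ^ t * ((Bad.card : ℝ) * (1 / 4) ^ t) ≤
        (8 : ℝ) ^ t * ((Fintype.card α : ℝ) ^ n * (1 / 8) ^ t) :=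
      mul_le_mul_of_nonneg_left h5 (by positivity)
    have h8 : (8 : ℝ) ^ t * ((Bad.card : ℝ) * (1 / 4) ^ t) = (2 : ℝ) ^ t * Bad.card := by
      rw [mul_comm (Bad.card : ℝ), ← mul_assoc, ← mul_pow]
      norm_num
    have h9 : (8 : ℝ) ^ t * ((Fintype.card α : ℝ) ^ n * (1 / 8) ^ t) =
        (Fintype.card α : ℝ) ^ n := by
      rw [mul_comm ((Fintype.card α : ℝ) ^ n), ← mul_assoc, ← mul_pow]
      norm_num
    rw [h8, h9] at h7
    exact h7
  rw [Fintype.card_fun, Fintype.card_fin]
  exact_mod_cast h6

/-- The upper tail. -/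
theorem tail_up [Nonempty α] (S : Finset (Fin n)) (Q : Fin n → Finset α) (a t : ℕ)
    (hQ : ∀ c ∈ S, (Q c).card ≤ a) (h : 8 * a * S.card ≤ t * Fintype.card α) :
    2 ^ t * (univ.filter fun f : Fin n → α => t < (S.filter fun c => f c ∈ Q c).card).card ≤
      Fintype.card (Fin n → α) := by
  have hα : (0 : ℝ) < Fintype.card α := by exact_mod_cast Fintype.card_pos
  set Bad := univ.filter fun f : Fin n → α => t < (S.filter fun c => f c ∈ Q c).card with hBad
  have h1 := gen_le S Q 8 (7 * a / Fintype.card α) (by norm_num) (by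
    intro c hc
    have h2 := Real.add_one_le_exp (7 * a / Fintype.card α : ℝ)
    have h3 : (Fintype.card α : ℝ) * (7 * a / Fintype.card α + 1) ≤
        Fintype.card α * Real.exp (7 * a / Fintype.card α) :=
      mul_le_mul_of_nonneg_left h2 hα.le
    have h4 : (Fintype.card α : ℝ) * (7 * a / Fintype.card α + 1) =
        Fintype.card α + 7 * a := by
      field_simp
      ring
    have h5 : ((Q c).card : ℝ) ≤ a := by exact_mod_cast hQ c hc
    rw [h4] at h3
    linarith)
  have h2 : (Bad.card : ℝ) * 8 ^ t ≤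
      ∑ f : Fin n → α, (8 : ℝ) ^ (S.filter fun c => f c ∈ Q c).card := by
    calc (Bad.card : ℝ) * 8 ^ t = ∑ f ∈ Bad, (8 : ℝ) ^ t := by
          rw [sum_const, nsmul_eq_mul]
      _ ≤ ∑ f ∈ Bad, (8 : ℝ) ^ (S.filter fun c => f c ∈ Q c).card := by
          apply sum_le_sum
          intro f hf
          rw [hBad, mem_filter] at hf
          exact pow_le_pow_right₀ (by norm_num) hf.2.le
      _ ≤ _ := by
          apply sum_le_sum_of_subset_of_nonneg (subset_univ _)
          intro f _ _
          positivity
  have h3 : 7 * (a : ℝ) / Fintype.card α * S.card ≤ t := by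
    have h4 : (8 * a * S.card : ℝ) ≤ t * Fintype.card α := by exact_mod_cast h
    have h5 : (0 : ℝ) ≤ t * Fintype.card α := by positivity
    rw [div_mul_eq_mul_div, div_le_iff₀ hα]
    linarith
  have h4 : Real.exp (7 * (a : ℝ) / Fintype.card α * S.card) ≤ 4 ^ t := by
    calc Real.exp (7 * (a : ℝ) / Fintype.card α * S.card) ≤ Real.exp t :=
          Real.exp_le_exp.mpr h3
      _ = (Real.exp 1) ^ t := by
          rw [← Real.exp_nat_mul]
          congr 1
          ring
      _ ≤ 4 ^ t := by
          apply pow_le_pow_left₀ (Real.exp_pos _).le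
          have := Real.exp_one_lt_d9
          linarith
  have h5 : (Bad.card : ℝ) * 8 ^ t ≤ (Fintype.card α : ℝ) ^ n * 4 ^ t :=
    h2.trans (h1.trans (mul_le_mul_of_nonneg_left h4 (by positivity)))
  have h6 : (2 : ℝ) ^ t * Bad.card ≤ (Fintype.card α : ℝ) ^ n := by
    have h7 : (1 / 4 : ℝ) ^ t * ((Bad.card : ℝ) * 8 ^ t) ≤
        (1 / 4 : ℝ) ^ t * ((Fintype.card α : ℝ) ^ n * 4 ^ t) :=
      mul_le_mul_of_nonneg_left h5 (by positivity)
    have h8 : (1 / 4 : ℝ) ^ t * ((Bad.card : ℝ) * 8 ^ t) = (2 : ℝ) ^ t * Bad.card := by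
      rw [mul_comm (Bad.card : ℝ), ← mul_assoc, ← mul_pow]
      norm_num
    have h9 : (1 / 4 : ℝ) ^ t * ((Fintype.card α : ℝ) ^ n * 4 ^ t) =
        (Fintype.card α : ℝ) ^ n := by
      rw [mul_comm ((Fintype.card α : ℝ) ^ n), ← mul_assoc, ← mul_pow]
      norm_num
    rw [h8, h9] at h7
    exact h7
  rw [Fintype.card_fun, Fintype.card_fin]
  exact_mod_cast h6

/-- Resampling a part of the data. -/
theorem resample {X β : Type} [Fintype X] [Fintype β] (get : X → β) (set : β → X → X)
    (h1 : ∀ x v, get (set v x) = v) (h2 : ∀ x v w, set v (set w x) = set v x)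
    (h3 : ∀ x, set (get x) x = x) (E : X → Prop) [DecidablePred E] (m : ℕ)
    (h : ∀ x, m * (univ.filter fun v => E (set v x)).card ≤ Fintype.card β) :
    m * (univ.filter E).card ≤ Fintype.card X := by
  classical
  rcases isEmpty_or_nonempty X with hX | hX
  · simp
  · obtain ⟨x₀⟩ := hX
    have hβ : 0 < Fintype.card β := Fintype.card_pos_iff.mpr ⟨get x₀⟩
    have e1 : (univ.filter fun p : β × X => E (set p.1 p.2)).card =
        (univ.filter fun p : β × X => E p.2).card := by
      apply card_nbij' (fun p : β × X => (get p.2, set p.1 p.2))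
        (fun p : β × X => (get p.2, set p.1 p.2))
      · intro p hp
        simp only [coe_filter, mem_univ, true_and, Set.mem_ofPred_eq] at hp ⊢
        exact hp
      · intro p hp
        simp only [coe_filter, mem_univ, true_and, Set.mem_ofPred_eq] at hp ⊢
        rw [h2, h3]
        exact hp
      · intro p _
        simp only [h1, h2, h3]
      · intro p _
        simp only [h1, h2, h3]
    have e2 : (univ.filter fun p : β × X => E (set p.1 p.2)).card =
        ∑ x : X, (univ.filter fun v => E (set v x)).card := by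
      simp only [card_filter]
      rw [Fintype.sum_prod_type, sum_comm]
    have e3 : (univ.filter fun p : β × X => E p.2).card =
        Fintype.card β * (univ.filter E).card := by
      simp only [card_filter]
      rw [Fintype.sum_prod_type]
      show (∑ _x : β, ∑ y : X, if E y then 1 else 0) = _
      rw [sum_const, card_univ, smul_eq_mul]
    have e4 : Fintype.card β * (m * (univ.filter E).card) ≤ Fintype.card β * Fintype.card X := by
      calc Fintype.card β * (m * (univ.filter E).card)
          = m * (Fintype.card β * (univ.filter E).card) := by ring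
        _ = ∑ x : X, m * (univ.filter fun v => E (set v x)).card := by
            rw [← e3, ← e1, e2, mul_sum]
        _ ≤ ∑ _x : X, Fintype.card β := sum_le_sum fun x _ => h x
        _ = Fintype.card β * Fintype.card X := by
            rw [sum_const, card_univ, smul_eq_mul, mul_comm]
    exact Nat.le_of_mul_le_mul_left e4 hβ

open Classical in
/-- The number of elements with a property. -/
noncomputable def cnt {X : Type} [Fintype X] (E : X → Prop) : ℕ := (univ.filter E).card

theorem cnt_le {X : Type} [Fintype X] {E : X → Prop} (s : Finset X) (h : ∀ x, E x → x ∈ s) :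
    cnt E ≤ s.card := by
  classical
  apply card_le_card
  intro x hx
  rw [mem_filter] at hx
  exact h x hx.2

theorem cnt_mono {X : Type} [Fintype X] {E E' : X → Prop} (h : ∀ x, E x → E' x) :
    cnt E ≤ cnt E' := by
  classical
  apply card_le_card
  intro x hx
  rw [mem_filter] at hx ⊢
  exact ⟨mem_univ _, h x hx.2⟩

theorem cnt_or {X : Type} [Fintype X] (E E' : X → Prop) :
    cnt (fun x => E x ∨ E' x) ≤ cnt E + cnt E' := by
  classical
  have h1 : cnt (fun x => E x ∨ E' x) = (univ.filter fun x => E x ∨ E' x).card := by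
    unfold cnt
    congr
  have h2 : cnt E = (univ.filter fun x => E x).card := by
    unfold cnt
    congr
  have h3 : cnt E' = (univ.filter fun x => E' x).card := by
    unfold cnt
    congr
  rw [h1, h2, h3, filter_or]
  exact card_union_le _ _

/-- The union bound. -/
theorem union_bound {X ι : Type} [Fintype X] (s : Finset ι) (E : ι → X → Prop) (m N : ℕ)
    (h : ∀ i ∈ s, m * cnt (E i) ≤ N) :
    m * cnt (fun x => ∃ i ∈ s, E i x) ≤ s.card * N := by
  classical
  have h1 : cnt (fun x => ∃ i ∈ s, E i x) ≤ ∑ i ∈ s, cnt (E i) := by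
    have h2 : cnt (fun x => ∃ i ∈ s, E i x) ≤ (s.biUnion fun i => univ.filter (E i)).card := by
      apply cnt_le
      intro x hx
      simpa using hx
    refine h2.trans (card_biUnion_le.trans (sum_le_sum fun i _ => ?_))
    apply card_le_card
    intro x hx
    rw [mem_filter] at hx ⊢
    exact hx
  calc m * cnt (fun x => ∃ i ∈ s, E i x)
      ≤ m * ∑ i ∈ s, cnt (E i) := Nat.mul_le_mul_left _ h1
    _ = ∑ i ∈ s, m * cnt (E i) := by rw [mul_sum]
    _ ≤ ∑ _i ∈ s, N := sum_le_sum h
    _ = s.card * N := by rw [sum_const, smul_eq_mul]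

end Pool.Agent.MP4d246d.Rand
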