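import Pool.Agent.Lib.MP_4d246d_lc.Rand.Run
import Pool.Agent.Lib.MP_4d246d_lc.Rand.Prob

/-!
# The data and the bad events
-/

namespace Pool.Agent.MP4d246d.Rand

open Finset

/-- The data: for each leaf a raw vector and the numbers that determine a set. -/
abbrev Data (L n K : ℕ) : Type := Fin L → Fin n → Bool × Fin K

variable {L n K : ℕ}

/-- The raw vectors. -/
def bit (d : Data L n K) (i : ℕ) : Vertex n := fun c => if h : i < L then (d ⟨i, h⟩ c).1 else false

/-- The sets of the traps. -/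
def BB (b : ℕ → ℕ) (d : Data L n K) : ℕ → Finset (Fin n)
  | 0 => ∅
  | i + 1 => if h : i + 1 < L then
      univ.filter fun c => ((d ⟨i, Nat.lt_of_succ_lt h⟩ c).2 : ℕ) < b (i + 1) else ∅

theorem bit_update (d : Data L n K) {j : ℕ} (hj : j < L) (ρ : Fin n → Bool × Fin K) {i : ℕ}
    (h : i ≠ j) : bit (Function.update d ⟨j, hj⟩ ρ) i = bit d i := by
  funext c
  unfold bit
  by_cases hi : i < L
  · rw [dif_pos hi, dif_pos hi, Function.update_of_ne]
    intro h'
    exact h (congrArg Fin.val h')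
  · rw [dif_neg hi, dif_neg hi]

theorem bit_update_self (d : Data L n K) {j : ℕ} (hj : j < L) (ρ : Fin n → Bool × Fin K)
    (c : Fin n) : bit (Function.update d ⟨j, hj⟩ ρ) j c = (ρ c).1 := by
  unfold bit
  rw [dif_pos hj, Function.update_self]

theorem BB_update (b : ℕ → ℕ) (d : Data L n K) {j : ℕ} (hj : j < L) (ρ : Fin n → Bool × Fin K)
    {i : ℕ} (h : i ≠ j + 1) : BB b (Function.update d ⟨j, hj⟩ ρ) i = BB b d i := by
  cases i with
  | zero => rfl
  | succ i =>
    rw [BB, BB]
    by_cases hi : i + 1 < L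
    · rw [dif_pos hi, dif_pos hi]
      apply filter_congr
      intro c _
      rw [Function.update_of_ne]
      intro h'
      have : i = j := congrArg Fin.val h'
      exact h (by rw [this])
    · rw [dif_neg hi, dif_neg hi]

theorem BB_update_self (b : ℕ → ℕ) (d : Data L n K) {j : ℕ} (hj : j + 1 < L)
    (ρ : Fin n → Bool × Fin K) (c : Fin n) :
    c ∈ BB b (Function.update d ⟨j, Nat.lt_of_succ_lt hj⟩ ρ) (j + 1) ↔
      ((ρ c).2 : ℕ) < b (j + 1) := by
  rw [BB, dif_pos hj, mem_filter, Function.update_self]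
  simp

theorem card_fin_lt (K b : ℕ) : (univ.filter fun x : Fin K => (x : ℕ) < b).card = min b K := by
  have h : (univ.filter fun x : Fin K => (x : ℕ) < b).map Fin.valEmbedding = range (min b K) := by
    ext i
    simp only [mem_map, mem_filter, mem_univ, true_and, Fin.valEmbedding_apply, mem_range,
      lt_min_iff]
    constructor
    · rintro ⟨x, hx, rfl⟩
      exact ⟨hx, x.isLt⟩
    · rintro ⟨h1, h2⟩
      exact ⟨⟨i, h2⟩, h1, rfl⟩
  rw [← card_map, h, card_range]

theorem card_pair (K b : ℕ) (β : Bool) :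
    (univ.filter fun x : Bool × Fin K => (x.2 : ℕ) < b ∧ x.1 = β).card = min b K := by
  rw [← card_fin_lt K b]
  apply card_nbij' (fun x => x.2) (fun y => (β, y))
  · intro x hx
    simp only [coe_filter, mem_univ, true_and, Set.mem_ofPred_eq] at hx ⊢
    exact hx.1
  · intro x hx
    simp only [coe_filter, mem_univ, true_and, Set.mem_ofPred_eq] at hx ⊢
    exact ⟨hx, trivial⟩
  · intro x hx
    simp only [coe_filter, mem_univ, true_and, Set.mem_ofPred_eq] at hx
    exact Prod.ext hx.2.symm rfl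
  · intro x _
    rfl

theorem card_pair' (K b : ℕ) :
    (univ.filter fun x : Bool × Fin K => (x.2 : ℕ) < b).card ≤ 2 * b := by
  have h : (univ.filter fun x : Bool × Fin K => (x.2 : ℕ) < b) =
      (univ.filter fun x : Bool × Fin K => (x.2 : ℕ) < b ∧ x.1 = true) ∪
      (univ.filter fun x : Bool × Fin K => (x.2 : ℕ) < b ∧ x.1 = false) := by
    ext x
    simp only [mem_filter, mem_univ, true_and, mem_union]
    cases x.1 <;> simp
  rw [h]
  refine (card_union_le _ _).trans ?_
  rw [card_pair, card_pair]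
  have := min_le_left b K
  omega

variable (ρ : PivotRule n) (t : ℕ) (S : Shape) (v₀ : Vertex n)

/-- The wrong coordinates that are not closed. -/
noncomputable def wset (B : ℕ → Finset (Fin n)) (r : ℕ → Vertex n) (j k : ℕ) : Finset (Fin n) :=
  univ.filter fun c => c ∉ (cx B r S j).A ∧ pos ρ t B r S v₀ j k c ≠ gg B r S j c

theorem wr_ex (B : ℕ → Finset (Fin n)) (r : ℕ → Vertex n) (j k : ℕ) :
    wr (ex B r S j) (gg B r S j) (pos ρ t B r S v₀ j k) =
      ((wset ρ t S v₀ B r j k).filter fun c => c ∈ B (j + 1)).card := by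
  unfold wr wset ex exitSet
  congr 1
  ext c
  simp only [mem_filter, mem_sdiff, mem_univ, true_and]
  tauto

theorem wset_congr {B B' : ℕ → Finset (Fin n)} {r r' : ℕ → Vertex n} {j : ℕ}
    (hB : ∀ i ≤ j, B i = B' i) (hr : ∀ i ≤ j, r i = r' i) (k : ℕ) :
    wset ρ t S v₀ B r j k = wset ρ t S v₀ B' r' j k := by
  unfold wset
  rw [cxA_congr hB (fun i hi => hr i hi.le), pos_congr hB hr, gg_congr hB hr]

variable (b : ℕ → ℕ)

/-- A set is too large. -/
def E0 (σ : ℕ → ℕ) (i : ℕ) (d : Data L n K) : Prop := σ i < (BB b d i).card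

/-- A trap is entered too early. -/
def E1 (j : ℕ) (d : Data L n K) : Prop :=
  (cx (BB b d) (bit d) S j).A.card * 2 ≤ n ∧
    wr (ex (BB b d) (bit d) S j) (gg (BB b d) (bit d) S j) (pos ρ t (BB b d) (bit d) S v₀ j 0) ≤ t

/-- Few coordinates are wrong, but the walk has not left the leaf. -/
def E2 (j k : ℕ) (d : Data L n K) : Prop :=
  8 * b (j + 1) * (wset ρ t S v₀ (BB b d) (bit d) j k).card ≤ t * K ∧
    t < wr (ex (BB b d) (bit d) S j) (gg (BB b d) (bit d) S j)
      (pos ρ t (BB b d) (bit d) S v₀ j k)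

/-- Many coordinates are wrong, but not in a future trap. -/
def E3 (j k P : ℕ) (d : Data L n K) : Prop :=
  ∃ R, (P, R) ∈ (cx (BB b d) (bit d) S j).F ∧
    8 * t * K ≤ b P * (wset ρ t S v₀ (BB b d) (bit d) j k \ R).card ∧
    ((wset ρ t S v₀ (BB b d) (bit d) j k \ R).filter fun c =>
      c ∈ BB b d P ∧ bit d (P - 1) c = gg (BB b d) (bit d) S j c).card ≤ t

open Classical in
theorem E0_small (σ : ℕ → ℕ) (hK : 0 < K) (i : ℕ) (hσ : t ≤ σ i) (h : 8 * b i * n ≤ σ i * K) :
    2 ^ t * cnt (fun d : Data L n K => E0 b σ i d) ≤ Fintype.card (Data L n K) := by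
  have : Nonempty (Bool × Fin K) := ⟨(true, ⟨0, hK⟩)⟩
  have hempty : (∀ d : Data L n K, BB b d i = ∅) →
      2 ^ t * (univ.filter fun d : Data L n K => E0 b σ i d).card ≤
        Fintype.card (Data L n K) := by
    intro h0
    have : (univ.filter fun d : Data L n K => E0 b σ i d) = ∅ := by
      rw [filter_eq_empty_iff]
      intro d _ hd
      unfold E0 at hd
      rw [h0 d] at hd
      simp at hd
    rw [this]
    simp
  unfold cnt
  cases i with
  | zero => exact hempty fun d => rfl
  | succ i =>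
    by_cases hi : i + 1 < L
    · have hi' : i < L := Nat.lt_of_succ_lt hi
      apply resample (fun d : Data L n K => d ⟨i, hi'⟩) (fun ρ d => Function.update d ⟨i, hi'⟩ ρ)
        (by simp) (by simp) (by simp)
      intro d
      have h1 := tail_up (α := Bool × Fin K) (univ : Finset (Fin n))
        (fun _ => univ.filter fun x : Bool × Fin K => (x.2 : ℕ) < b (i + 1)) (2 * b (i + 1))
        (σ (i + 1)) (fun c _ => card_pair' K _) (by
          rw [card_univ, Fintype.card_fin, Fintype.card_prod, Fintype.card_bool, Fintype.card_fin]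
          calc 8 * (2 * b (i + 1)) * n = 2 * (8 * b (i + 1) * n) := by ring
            _ ≤ 2 * (σ (i + 1) * K) := Nat.mul_le_mul_left _ h
            _ = σ (i + 1) * (2 * K) := by ring)
      refine le_trans (Nat.mul_le_mul (Nat.pow_le_pow_right (by norm_num) hσ) (card_le_card ?_)) h1
      intro x hx
      rw [mem_filter] at hx ⊢
      refine ⟨mem_univ _, ?_⟩
      have h2 : σ (i + 1) < (BB b (Function.update d ⟨i, hi'⟩ x) (i + 1)).card := hx.2
      refine lt_of_lt_of_le h2 (card_le_card ?_)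
      intro c hc
      rw [BB_update_self b d hi x c] at hc
      simp [hc]
    · exact hempty fun d => dif_neg hi

open Classical in
theorem E1_small (hK : 0 < K) (j : ℕ) (hj : j + 1 < L) (hb : 0 < b (j + 1)) (hbK : b (j + 1) ≤ K)
    (hn : 16 * t * K ≤ n) :
    2 ^ t * cnt (fun d : Data L n K => E1 ρ t S v₀ b j d) ≤
      Fintype.card (Data L n K) := by
  have : Nonempty (Bool × Fin K) := ⟨(true, ⟨0, hK⟩)⟩
  have hj' : j < L := Nat.lt_of_succ_lt hj
  unfold cnt
  apply resample (fun d : Data L n K => d ⟨j, hj'⟩) (fun ρ d => Function.update d ⟨j, hj'⟩ ρ)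
    (by simp) (by simp) (by simp)
  intro d
  set A := (cx (BB b d) (bit d) S j).A with hA
  set u := (st ρ t (BB b d) (bit d) S v₀ j).2 with hu
  have hB : ∀ x, ∀ i ≤ j, BB b (Function.update d ⟨j, hj'⟩ x) i = BB b d i := fun x i hi =>
    BB_update b d hj' x (by omega)
  have hr : ∀ x, ∀ i < j, bit (Function.update d ⟨j, hj'⟩ x) i = bit d i := fun x i hi =>
    bit_update d hj' x (by omega)
  have hA' : ∀ x, (cx (BB b (Function.update d ⟨j, hj'⟩ x)) (bit (Function.update d ⟨j, hj'⟩ x)) S
      j).A = A := fun x => cxA_congr (hB x) (hr x)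
  by_cases hAn : A.card * 2 ≤ n
  · have h1 := tail_low (α := Bool × Fin K) Aᶜ
      (fun c => univ.filter fun x : Bool × Fin K => (x.2 : ℕ) < b (j + 1) ∧ x.1 = !(u c))
      (b (j + 1)) t (fun c _ => by rw [card_pair, min_eq_left hbK]) (by
        rw [Fintype.card_prod, Fintype.card_bool, Fintype.card_fin, card_compl, Fintype.card_fin]
        have h2 : 8 * t * K ≤ n - A.card := by
          have : 16 * t * K = 2 * (8 * t * K) := by ring
          omega
        calc 4 * t * (2 * K) = 1 * (8 * t * K) := by ring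
          _ ≤ b (j + 1) * (n - A.card) := Nat.mul_le_mul hb h2)
    refine le_trans (Nat.mul_le_mul_left _ (card_le_card ?_)) h1
    intro x hx
    rw [mem_filter] at hx ⊢
    refine ⟨mem_univ _, ?_⟩
    refine le_trans (card_le_card ?_) hx.2.2
    intro c hc
    simp only [mem_filter, mem_compl, mem_univ, true_and] at hc
    unfold ex exitSet
    rw [mem_filter, mem_sdiff, hA', BB_update_self b d hj x c]
    refine ⟨⟨hc.2.1, hc.1⟩, ?_⟩
    have h3 : pos ρ t (BB b (Function.update d ⟨j, hj'⟩ x)) (bit (Function.update d ⟨j, hj'⟩ x)) S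
        v₀ j 0 = u := by
      show (st ρ t _ _ S v₀ j).2 = u
      rw [st_congr (hB x) (hr x)]
    have h4 : gg (BB b (Function.update d ⟨j, hj'⟩ x)) (bit (Function.update d ⟨j, hj'⟩ x)) S j c =
        (x c).1 := by
      unfold gg tg
      rw [hA', if_neg hc.1, bit_update_self]
    rw [h3, h4, hc.2.2]
    exact (bool_not_ne _).symm
  · have : (univ.filter fun x : Fin n → Bool × Fin K =>
        E1 ρ t S v₀ b j (Function.update d ⟨j, hj'⟩ x)) = ∅ := by
      rw [filter_eq_empty_iff]
      intro x _ hx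
      apply hAn
      have := hx.1
      rwa [hA'] at this
    rw [this]
    simp

open Classical in
theorem E2_small (hK : 0 < K) (j k : ℕ) (hj : j + 1 < L) :
    2 ^ t * cnt (fun d : Data L n K => E2 ρ t S v₀ b j k d) ≤
      Fintype.card (Data L n K) := by
  have : Nonempty (Fin K) := ⟨⟨0, hK⟩⟩
  have hj' : j < L := Nat.lt_of_succ_lt hj
  unfold cnt
  apply resample (fun (d : Data L n K) (c : Fin n) => (d ⟨j, hj'⟩ c).2)
    (fun κ d => Function.update d ⟨j, hj'⟩ fun c => ((d ⟨j, hj'⟩ c).1, κ c))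
    (by intro d κ; simp) (by intro d κ κ'; simp) (by intro d; simp)
  intro d
  have hB : ∀ κ : Fin n → Fin K, ∀ i ≤ j,
      BB b (Function.update d ⟨j, hj'⟩ fun c => ((d ⟨j, hj'⟩ c).1, κ c)) i = BB b d i :=
    fun κ i hi => BB_update b d hj' _ (by omega)
  have hr : ∀ κ : Fin n → Fin K, ∀ i ≤ j,
      bit (Function.update d ⟨j, hj'⟩ fun c => ((d ⟨j, hj'⟩ c).1, κ c)) i = bit d i := by
    intro κ i hi
    by_cases hij : i = j
    · subst hij
      funext c
      rw [bit_update_self, bit, dif_pos hj']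
    · exact bit_update d hj' _ hij
  by_cases hW : 8 * b (j + 1) * (wset ρ t S v₀ (BB b d) (bit d) j k).card ≤ t * K
  · have h1 := tail_up (α := Fin K) (wset ρ t S v₀ (BB b d) (bit d) j k)
      (fun _ => univ.filter fun x : Fin K => (x : ℕ) < b (j + 1)) (b (j + 1)) t
      (fun c _ => by rw [card_fin_lt]; exact min_le_left _ _) (by rw [Fintype.card_fin]; exact hW)
    refine le_trans (Nat.mul_le_mul_left _ (card_le_card ?_)) h1
    intro x hx
    rw [mem_filter] at hx ⊢
    refine ⟨mem_univ _, ?_⟩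
    have h2 := hx.2.2
    rw [wr_ex, wset_congr ρ t S v₀ (hB x) (hr x)] at h2
    refine lt_of_lt_of_le h2 (card_le_card ?_)
    intro c hc
    rw [mem_filter, BB_update_self b d hj _ c] at hc
    rw [mem_filter, mem_filter]
    exact ⟨hc.1, mem_univ _, hc.2⟩
  · have : (univ.filter fun κ : Fin n → Fin K =>
        E2 ρ t S v₀ b j k (Function.update d ⟨j, hj'⟩ fun c => ((d ⟨j, hj'⟩ c).1, κ c))) = ∅ := by
      rw [filter_eq_empty_iff]
      intro x _ hx
      apply hW
      have := hx.1
      rwa [wset_congr ρ t S v₀ (hB x) (hr x)] at this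
    rw [this]
    simp

open Classical in
theorem E3_small (hK : 0 < K) (j k P : ℕ) (hjP : j + 1 < P) (hP : P < L) (hbK : b P ≤ K) :
    2 ^ t * cnt (fun d : Data L n K => E3 ρ t S v₀ b j k P d) ≤
      Fintype.card (Data L n K) := by
  have : Nonempty (Bool × Fin K) := ⟨(true, ⟨0, hK⟩)⟩
  obtain ⟨i, rfl⟩ : ∃ i, P = i + 1 := ⟨P - 1, by omega⟩
  have hi' : i < L := Nat.lt_of_succ_lt hP
  unfold cnt
  apply resample (fun d : Data L n K => d ⟨i, hi'⟩) (fun ρ d => Function.update d ⟨i, hi'⟩ ρ)
    (by simp) (by simp) (by simp)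
  intro d
  have hB : ∀ x, ∀ i' < i + 1, BB b (Function.update d ⟨i, hi'⟩ x) i' = BB b d i' := fun x i' h =>
    BB_update b d hi' x (by omega)
  have hr : ∀ x, ∀ i' < i, bit (Function.update d ⟨i, hi'⟩ x) i' = bit d i' := fun x i' h =>
    bit_update d hi' x (by omega)
  have hW : ∀ x, wset ρ t S v₀ (BB b (Function.update d ⟨i, hi'⟩ x))
      (bit (Function.update d ⟨i, hi'⟩ x)) j k = wset ρ t S v₀ (BB b d) (bit d) j k := fun x =>
    wset_congr ρ t S v₀ (fun i' h => hB x i' (by omega)) (fun i' h => hr x i' (by omega)) k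
  have hg : ∀ x, gg (BB b (Function.update d ⟨i, hi'⟩ x)) (bit (Function.update d ⟨i, hi'⟩ x)) S j =
      gg (BB b d) (bit d) S j := fun x =>
    gg_congr (fun i' h => hB x i' (by omega)) (fun i' h => hr x i' (by omega))
  have hF : ∀ x R, (i + 1, R) ∈ (cx (BB b (Function.update d ⟨i, hi'⟩ x))
      (bit (Function.update d ⟨i, hi'⟩ x)) S j).F → (i + 1, R) ∈ (cx (BB b d) (bit d) S j).F :=
    fun x R h => cxF_congr (by omega) (hB x) R h
  by_cases hex : ∃ R, (i + 1, R) ∈ (cx (BB b d) (bit d) S j).F ∧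
      8 * t * K ≤ b (i + 1) * (wset ρ t S v₀ (BB b d) (bit d) j k \ R).card
  · obtain ⟨R, hR, hc⟩ := hex
    have h1 := tail_low (α := Bool × Fin K) (wset ρ t S v₀ (BB b d) (bit d) j k \ R)
      (fun c => univ.filter fun x : Bool × Fin K =>
        (x.2 : ℕ) < b (i + 1) ∧ x.1 = gg (BB b d) (bit d) S j c)
      (b (i + 1)) t (fun c _ => by rw [card_pair, min_eq_left hbK]) (by
        rw [Fintype.card_prod, Fintype.card_bool, Fintype.card_fin]
        calc 4 * t * (2 * K) = 8 * t * K := by ring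
          _ ≤ _ := hc)
    refine le_trans (Nat.mul_le_mul_left _ (card_le_card ?_)) h1
    intro x hx
    rw [mem_filter] at hx ⊢
    refine ⟨mem_univ _, ?_⟩
    obtain ⟨R', hR', -, h3⟩ := hx.2
    have h4 : R' = R := cxF_unique (hF x R' hR') hR rfl
    subst h4
    rw [hW, hg] at h3
    refine le_trans (card_le_card ?_) h3
    intro c hc
    rw [mem_filter, mem_filter] at hc
    rw [mem_filter, BB_update_self b d hP x c, Nat.add_sub_cancel, bit_update_self]
    exact ⟨hc.1, hc.2.2⟩
  · have : (univ.filter fun x : Fin n → Bool × Fin K =>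
        E3 ρ t S v₀ b j k (i + 1) (Function.update d ⟨i, hi'⟩ x)) = ∅ := by
      rw [filter_eq_empty_iff]
      rintro x _ ⟨R, h1, h2, -⟩
      rw [hW] at h2
      exact hex ⟨R, hF x R h1, h2⟩
    rw [this]
    simp

end Pool.Agent.MP4d246d.Rand
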