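import Pool.Agent.Lib.MP_4d246d_lc.Rand.Comb

/-!
# Randomised pivot rules
-/

namespace Pool.Agent.MP4d246d.Rand

open Finset MeasureTheory
open scoped ENNReal

/-- Averaging: if for each `ω` many data are good, then on average data are good for many `ω`. No
measurability is needed for outer measure. -/
theorem sum_data {Ω : Type*} [MeasurableSpace Ω] (μ : Measure Ω) [IsProbabilityMeasure μ]
    {X : Type} [Fintype X] (good : Ω → X → Prop) (c : ℝ≥0∞)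
    (h : ∀ ω, c * Fintype.card X ≤ (cnt (good ω) : ℝ≥0∞)) :
    c * Fintype.card X ≤ ∑ x : X, μ {ω | good ω x} := by
  classical
  have h1 : ∫⁻ ω, ∑ x : X, (toMeasurable μ {ω | good ω x}).indicator 1 ω ∂μ =
      ∑ x : X, μ {ω | good ω x} := by
    rw [lintegral_finsetSum]
    · apply sum_congr rfl
      intro x _
      rw [lintegral_indicator_one (measurableSet_toMeasurable _ _), measure_toMeasurable]
    · intro x _
      exact measurable_one.indicator (measurableSet_toMeasurable _ _)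
  have h2 : ∀ ω, c * Fintype.card X ≤
      ∑ x : X, (toMeasurable μ {ω | good ω x}).indicator (1 : Ω → ℝ≥0∞) ω := by
    intro ω
    refine (h ω).trans ?_
    have h3 : (cnt (good ω) : ℝ≥0∞) = ∑ x : X, if good ω x then (1 : ℝ≥0∞) else 0 := by
      unfold cnt
      rw [card_filter]
      push_cast
      apply sum_congr rfl
      intro x _
      by_cases hx : good ω x <;> simp [hx]
    rw [h3]
    apply sum_le_sum
    intro x _
    by_cases hx : good ω x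
    · rw [if_pos hx, Set.indicator_of_mem (subset_toMeasurable μ _ hx)]
      exact le_rfl
    · rw [if_neg hx]
      exact zero_le
  rw [← h1]
  calc c * Fintype.card X = ∫⁻ _ω, c * Fintype.card X ∂μ := by
        rw [lintegral_const, measure_univ, mul_one]
    _ ≤ _ := lintegral_mono h2

/-- The general form of the theorem. -/
theorem general (n M H t s : ℕ) (hM : 1 ≤ M) (h1 : 16 * t * (M * 2 ^ (14 * H)) ≤ n)
    (h2 : n ≤ 32 * t * (M * 2 ^ (14 * H)))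
    (h3 : 2 ^ s * (4 * ((M + 1) ^ H) ^ 2 * (n + 1)) ≤ 2 ^ t) :
    ∃ (X : Type) (_ : Fintype X) (_ : Nonempty X) (f : X → Vertex n → ℝ),
      (∀ x, AbstractObjective (f x)) ∧
      ∀ {Ω : Type*} [MeasurableSpace Ω] (μ : Measure Ω) [IsProbabilityMeasure μ]
        (ρ : Ω → PivotRule n) (v₀ : Ω → Vertex n),
        (1 - (2 ^ s : ℝ≥0∞)⁻¹) * Fintype.card X ≤
          ∑ x, μ {ω | ∀ N < (M + 1) ^ H, (run (ρ ω) (f x) (v₀ ω) N).length = N + 1} := by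
  classical
  set K := M * 2 ^ (14 * H) with hK
  have hKpos : 0 < K := Nat.mul_pos hM (Nat.pow_pos (by norm_num))
  set S := mk M H with hS
  have hSs : S.size = (M + 1) ^ H := size_mk M H
  have hp := params (n := n) (K := K) (t := t) (M := M) (H := H) hM le_rfl h1 h2
  rw [← hS] at hp
  set b : ℕ → ℕ := fun i => 128 ^ lev (M + 1) H i with hb
  set σ : ℕ → ℕ := fun i => 256 * t * 128 ^ lev (M + 1) H i with hσ
  have : Nonempty (Bool × Fin K) := ⟨(true, ⟨0, hKpos⟩)⟩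
  refine ⟨Data S.size n K, inferInstance, inferInstance, fun d => obj (BB b d) (bit d) t S,
    fun d => obj_abstract _ _ _ _, ?_⟩
  intro Ω _ μ _ ρ v₀
  -- few data are bad
  have hbad : ∀ ω, 2 ^ s * cnt (fun d : Data S.size n K => Bad (ρ ω) t S (v₀ ω) b σ d) ≤
      Fintype.card (Data S.size n K) := by
    intro ω
    have h4 := bad_small (ρ := ρ ω) (v₀ := v₀ ω) hp
    rw [← hSs] at h3
    have hspos := S.size_pos
    set m := 4 * S.size ^ 2 * (n + 1) with hm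
    have hmpos : 0 < m := by positivity
    set c := cnt (fun d : Data S.size n K => Bad (ρ ω) t S (v₀ ω) b σ d)
    have h5 : m * (2 ^ s * c) ≤ m * Fintype.card (Data S.size n K) := by
      calc m * (2 ^ s * c) = (2 ^ s * m) * c := by ring
        _ ≤ 2 ^ t * c := Nat.mul_le_mul_right _ h3
        _ ≤ _ := h4
    exact Nat.le_of_mul_le_mul_left h5 hmpos
  refine sum_data μ (fun ω (d : Data S.size n K) => ∀ N < (M + 1) ^ H,
      (run (ρ ω) (obj (BB b d) (bit d) t S) (v₀ ω) N).length = N + 1) (1 - (2 ^ s : ℝ≥0∞)⁻¹) ?_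
  intro ω
  have h4 : Fintype.card (Data S.size n K) ≤
      cnt (fun d : Data S.size n K => Bad (ρ ω) t S (v₀ ω) b σ d) +
      cnt (fun d : Data S.size n K => ∀ N < (M + 1) ^ H,
        (run (ρ ω) (obj (BB b d) (bit d) t S) (v₀ ω) N).length = N + 1) := by
    have h5 : Fintype.card (Data S.size n K) = cnt (fun _ : Data S.size n K => True) := by
      unfold cnt
      rw [filter_true, card_univ]
    rw [h5]
    refine le_trans (cnt_mono ?_) (cnt_or _ _)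
    intro d _
    by_cases hd : Bad (ρ ω) t S (v₀ ω) b σ d
    · exact Or.inl hd
    · refine Or.inr fun N hN => ?_
      exact long_run hp d hd (by rw [hSs]; exact hN)
  have h6 := hbad ω
  set X := Fintype.card (Data S.size n K)
  set c := cnt (fun d : Data S.size n K => Bad (ρ ω) t S (v₀ ω) b σ d)
  set g := cnt (fun d : Data S.size n K => ∀ N < (M + 1) ^ H,
        (run (ρ ω) (obj (BB b d) (bit d) t S) (v₀ ω) N).length = N + 1)
  have h7 : (X : ℝ≥0∞) ≤ c + g := by exact_mod_cast h4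
  have h8 : (2 ^ s : ℝ≥0∞) * c ≤ X := by exact_mod_cast h6
  have h9 : (c : ℝ≥0∞) ≤ (2 ^ s : ℝ≥0∞)⁻¹ * X := by
    have h10 : (2 ^ s : ℝ≥0∞)⁻¹ * ((2 ^ s : ℝ≥0∞) * c) ≤ (2 ^ s : ℝ≥0∞)⁻¹ * X :=
      mul_le_mul_right h8 _
    rwa [← mul_assoc, ENNReal.inv_mul_cancel (by positivity) (by finiteness), one_mul] at h10
  rw [ENNReal.sub_mul (by intro _ _; finiteness), one_mul]
  rw [tsub_le_iff_right]
  calc (X : ℝ≥0∞) ≤ c + g := h7
    _ ≤ (2 ^ s : ℝ≥0∞)⁻¹ * X + g := by gcongr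
    _ = g + (2 ^ s : ℝ≥0∞)⁻¹ * X := add_comm _ _

theorem num_ineq (k : ℕ) (hk : 4 ≤ k) :
    2 ^ (6 * k) + 2 + 80 * k ^ 2 + 56 * k + 56 ≤ 2 ^ (7 * k) := by
  have h1 : k + 1 ≤ 2 ^ k := Nat.lt_two_pow_self
  have h2 : 16 ≤ 2 ^ k := by
    calc 16 = 2 ^ 4 := by norm_num
      _ ≤ 2 ^ k := Nat.pow_le_pow_right (by norm_num) hk
  set x := 2 ^ k with hx
  have e6 : 2 ^ (6 * k) = x ^ 6 := by rw [hx, ← pow_mul, mul_comm]
  have e7 : 2 ^ (7 * k) = x ^ 7 := by rw [hx, ← pow_mul, mul_comm]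
  rw [e6, e7]
  have h3 : 16 * x ^ 6 ≤ x ^ 7 := by
    calc 16 * x ^ 6 ≤ x * x ^ 6 := Nat.mul_le_mul_right _ h2
      _ = x ^ 7 := by ring
  have h4 : 16 ^ 4 * (k + 1) ^ 2 ≤ x ^ 6 := by
    calc 16 ^ 4 * (k + 1) ^ 2 ≤ x ^ 4 * x ^ 2 :=
          Nat.mul_le_mul (Nat.pow_le_pow_left h2 4) (Nat.pow_le_pow_left h1 2)
      _ = x ^ 6 := by ring
  have h5 : (k + 1) ^ 2 = k ^ 2 + 2 * k + 1 := by ring
  omega

/-- The theorem with the parameter `k`, about `log n / 56`. -/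
theorem with_k (n k : ℕ) (hk : 4 ≤ k) (h1 : 2 ^ (56 * k) ≤ n) (h2 : n < 2 ^ (56 * k + 56)) :
    ∃ (X : Type) (_ : Fintype X) (_ : Nonempty X) (f : X → Vertex n → ℝ),
      (∀ x, AbstractObjective (f x)) ∧
      ∀ {Ω : Type*} [MeasurableSpace Ω] (μ : Measure Ω) [IsProbabilityMeasure μ]
        (ρ : Ω → PivotRule n) (v₀ : Ω → Vertex n),
        (1 - (2 ^ (2 ^ (6 * k)) : ℝ≥0∞)⁻¹) * Fintype.card X ≤
          ∑ x, μ {ω | ∀ N < 2 ^ (40 * k ^ 2), (run (ρ ω) (f x) (v₀ ω) N).length = N + 1} := by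
  have hpow : 1 < 2 ^ (20 * k) := Nat.one_lt_pow (by omega) (by norm_num)
  obtain ⟨M, hM⟩ : ∃ M, 2 ^ (20 * k) = M + 1 := ⟨2 ^ (20 * k) - 1, by omega⟩
  have hM1 : 1 ≤ M := by omega
  set K := M * 2 ^ (14 * (2 * k)) with hK
  have hKpos : 0 < K := Nat.mul_pos hM1 (Nat.pow_pos (by norm_num))
  have hK2 : 16 * K ≤ 2 ^ (48 * k + 4) := by
    calc 16 * K = 16 * (M * 2 ^ (14 * (2 * k))) := by rw [hK]
      _ ≤ 16 * (2 ^ (20 * k) * 2 ^ (14 * (2 * k))) :=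
          Nat.mul_le_mul_left _ (Nat.mul_le_mul_right _ (by omega))
      _ = 2 ^ (48 * k + 4) := by
          rw [← pow_add, show (16 : ℕ) = 2 ^ 4 by norm_num, ← pow_add]
          congr 1
          ring
  set t := n / (16 * K) with ht
  have ht1 : 2 ^ (7 * k) ≤ t := by
    rw [ht, Nat.le_div_iff_mul_le (by omega)]
    calc 2 ^ (7 * k) * (16 * K) ≤ 2 ^ (7 * k) * 2 ^ (48 * k + 4) := Nat.mul_le_mul_left _ hK2
      _ = 2 ^ (55 * k + 4) := by
          rw [← pow_add]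
          congr 1
          ring
      _ ≤ 2 ^ (56 * k) := Nat.pow_le_pow_right (by norm_num) (by omega)
      _ ≤ n := h1
  have ht0 : 1 ≤ t := (Nat.one_le_pow _ _ (by norm_num)).trans ht1
  have g1 : 16 * t * K ≤ n := by
    calc 16 * t * K = t * (16 * K) := by ring
      _ ≤ n := Nat.div_mul_le_self _ _
  have g2 : n ≤ 32 * t * K := by
    have h3 : n < (16 * K) * (t + 1) := Nat.lt_mul_div_succ n (by omega)
    have h4 : (16 * K) * (t + 1) ≤ 32 * t * K := by nlinarith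
    omega
  have hexp : 2 ^ (40 * k ^ 2) = (M + 1) ^ (2 * k) := by
    rw [← hM, ← pow_mul]
    congr 1
    ring
  have g3 : 2 ^ (2 ^ (6 * k)) * (4 * ((M + 1) ^ (2 * k)) ^ 2 * (n + 1)) ≤ 2 ^ t := by
    rw [← hexp]
    calc 2 ^ (2 ^ (6 * k)) * (4 * (2 ^ (40 * k ^ 2)) ^ 2 * (n + 1))
        ≤ 2 ^ (2 ^ (6 * k)) * (4 * (2 ^ (40 * k ^ 2)) ^ 2 * 2 ^ (56 * k + 56)) :=
          Nat.mul_le_mul_left _ (Nat.mul_le_mul_left _ h2)
      _ = 2 ^ (2 ^ (6 * k) + 2 + 80 * k ^ 2 + 56 * k + 56) := by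
          rw [show (4 : ℕ) = 2 ^ 2 by norm_num, ← pow_mul, ← pow_add, ← pow_add, ← pow_add]
          congr 1
          ring
      _ ≤ 2 ^ (2 ^ (7 * k)) := Nat.pow_le_pow_right (by norm_num) (num_ineq k hk)
      _ ≤ 2 ^ t := Nat.pow_le_pow_right (by norm_num) ht1
  have := general n M (2 * k) t (2 ^ (6 * k)) hM1 g1 g2 g3
  rw [← hexp] at this
  exact this

theorem ofReal_aux (s : ℕ) :
    ENNReal.ofReal (1 - ((2 : ℝ) ^ s)⁻¹) = 1 - (2 ^ s : ℝ≥0∞)⁻¹ := by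
  rw [ENNReal.ofReal_sub _ (by positivity), ENNReal.ofReal_one,
    ENNReal.ofReal_inv_of_pos (by positivity), ENNReal.ofReal_pow (by norm_num)]
  norm_num

theorem logb_bounds (n k : ℕ) (hn : 1 ≤ n) (h2 : n < 2 ^ (56 * k + 56)) :
    0 ≤ Real.logb 2 n ∧ Real.logb 2 n ≤ 56 * k + 56 ∧ (2 : ℝ) ^ Real.logb 2 n = n := by
  have hnpos : (0 : ℝ) < n := by exact_mod_cast hn
  have hn1 : (1 : ℝ) ≤ n := by exact_mod_cast hn
  refine ⟨Real.logb_nonneg (by norm_num) hn1, ?_, Real.rpow_logb (by norm_num) (by norm_num) hnpos⟩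
  rw [Real.logb_le_iff_le_rpow (by norm_num) hnpos]
  have h3 : (n : ℝ) ≤ (2 : ℝ) ^ (56 * k + 56 : ℕ) := by exact_mod_cast h2.le
  calc (n : ℝ) ≤ (2 : ℝ) ^ (56 * k + 56 : ℕ) := h3
    _ = (2 : ℝ) ^ ((56 * k + 56 : ℕ) : ℝ) := (Real.rpow_natCast _ _).symm
    _ = (2 : ℝ) ^ (56 * k + 56 : ℝ) := by push_cast; rfl

theorem root_le (n k s : ℕ) (hk : 4 ≤ k) (hs : s = 2 ^ (6 * k)) (hn : 1 ≤ n)
    (h2 : n < 2 ^ (56 * k + 56)) : (n : ℝ) ^ (1 / 12 : ℝ) ≤ (s : ℝ) := by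
  obtain ⟨-, hlog, hn2⟩ := logb_bounds n k hn h2
  have hkr : (4 : ℝ) ≤ k := by exact_mod_cast hk
  have h3 : (n : ℝ) ^ (1 / 12 : ℝ) = (2 : ℝ) ^ (Real.logb 2 n * (1 / 12)) := by
    rw [Real.rpow_mul (by norm_num), hn2]
  have h4 : (s : ℝ) = (2 : ℝ) ^ ((6 * k : ℕ) : ℝ) := by
    rw [Real.rpow_natCast, hs]
    push_cast
    rfl
  rw [h3, h4]
  apply Real.rpow_le_rpow_of_exponent_le (by norm_num)
  push_cast
  linarith

theorem number_aux (L k : ℝ) (hk : 4 ≤ k) (h0 : 0 ≤ L) (h : L ≤ 56 * k + 56) :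
    L * (L / 125) < 40 * k ^ 2 := by
  have h5 : L ≤ 70 * k := by linarith
  have h6 : L * L ≤ (70 * k) * (70 * k) := mul_le_mul h5 h5 h0 (by linarith)
  have h7 : L * (L / 125) = L * L / 125 := by ring
  rw [h7, div_lt_iff₀ (by norm_num)]
  have h8 : 0 < k ^ 2 := by positivity
  nlinarith

theorem number_lt (n k : ℕ) (hk : 4 ≤ k) (hn : 1 ≤ n) (h2 : n < 2 ^ (56 * k + 56)) (N : ℕ)
    (hN : (N : ℝ) ≤ (n : ℝ) ^ (Real.logb 2 n / 125)) : N < 2 ^ (40 * k ^ 2) := by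
  obtain ⟨hlog0, hlog, hn2⟩ := logb_bounds n k hn h2
  have hkr : (4 : ℝ) ≤ k := by exact_mod_cast hk
  have h3 : (n : ℝ) ^ (Real.logb 2 n / 125) = (2 : ℝ) ^ (Real.logb 2 n * (Real.logb 2 n / 125)) := by
    rw [Real.rpow_mul (by norm_num), hn2]
  have h : (N : ℝ) < (2 : ℝ) ^ (40 * (k : ℝ) ^ 2) :=
    lt_of_le_of_lt (hN.trans h3.le)
      (Real.rpow_lt_rpow_of_exponent_lt (by norm_num) (number_aux _ _ hkr hlog0 hlog))
  have h1 : (40 * (k : ℝ) ^ 2) = ((40 * k ^ 2 : ℕ) : ℝ) := by push_cast; rfl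
  rw [h1, Real.rpow_natCast] at h
  have h5 : ((2 : ℝ) ^ (40 * k ^ 2 : ℕ)) = ((2 ^ (40 * k ^ 2) : ℕ) : ℝ) := by
    rw [Nat.cast_pow, Nat.cast_ofNat]
  rw [h5, Nat.cast_lt] at h
  exact h

theorem prob_le (s : ℕ) (x : ℝ) (h : x ≤ s) :
    ENNReal.ofReal (1 - 2 ^ (-x)) ≤ 1 - (2 ^ s : ℝ≥0∞)⁻¹ := by
  rw [← ofReal_aux]
  apply ENNReal.ofReal_le_ofReal
  have h4 : ((2 : ℝ) ^ s)⁻¹ ≤ (2 : ℝ) ^ (-x) := by
    rw [Real.rpow_neg (by norm_num), ← Real.rpow_natCast]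
    apply inv_anti₀ (by positivity)
    exact Real.rpow_le_rpow_of_exponent_le (by norm_num) h
  linarith

/-- The theorem. -/
theorem main (n : ℕ) (hn : 2 ^ 224 ≤ n) :
    ∃ (m : ℕ) (f : Fin (m + 1) → Vertex n → ℝ), (∀ i, AbstractObjective (f i)) ∧
      ∀ {Ω : Type*} [MeasurableSpace Ω] (μ : Measure Ω) [IsProbabilityMeasure μ]
        (ρ : Ω → PivotRule n) (v₀ : Ω → Vertex n),
        ENNReal.ofReal (1 - 2 ^ (-(n : ℝ) ^ (1 / 12 : ℝ))) * (m + 1) ≤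
          ∑ i, μ {ω | AtLeast ((n : ℝ) ^ (Real.logb 2 n / 125)) (ρ ω) (f i) (v₀ ω)} ∧
        ∃ i, ENNReal.ofReal (1 - 2 ^ (-(n : ℝ) ^ (1 / 12 : ℝ))) ≤
          μ {ω | AtLeast ((n : ℝ) ^ (Real.logb 2 n / 125)) (ρ ω) (f i) (v₀ ω)} := by
  have hn0 : n ≠ 0 := by
    intro h
    rw [h] at hn
    exact absurd hn (by norm_num)
  obtain ⟨k, hk, h1, h2⟩ : ∃ k, 4 ≤ k ∧ 2 ^ (56 * k) ≤ n ∧ n < 2 ^ (56 * k + 56) := by
    have ha1 : 2 ^ Nat.log 2 n ≤ n := Nat.pow_log_le_self 2 hn0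
    have ha2 : n < 2 ^ (Nat.log 2 n + 1) := Nat.lt_pow_succ_log_self (by norm_num) n
    have ha3 : 224 ≤ Nat.log 2 n := (Nat.le_log_iff_pow_le (by norm_num) hn0).mpr hn
    exact ⟨Nat.log 2 n / 56, by omega,
      (Nat.pow_le_pow_right (by norm_num) (by omega)).trans ha1,
      lt_of_lt_of_le ha2 (Nat.pow_le_pow_right (by norm_num) (by omega))⟩
  clear hn
  have hn1 : 1 ≤ n := Nat.pos_of_ne_zero hn0
  obtain ⟨s, hs⟩ : ∃ s, s = 2 ^ (6 * k) := ⟨_, rfl⟩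
  obtain ⟨X, _, hX, F, hF, hμ⟩ := with_k n k hk h1 h2
  rw [← hs] at hμ
  obtain ⟨m, hm⟩ : ∃ m, Fintype.card X = m + 1 :=
    ⟨Fintype.card X - 1, by have := Fintype.card_pos (α := X); omega⟩
  let e : Fin (m + 1) ≃ X := (finCongr hm.symm).trans (Fintype.equivFin X).symm
  have hpr := prob_le s _ (root_le n k s hk hs hn1 h2)
  set δ := ENNReal.ofReal (1 - 2 ^ (-(n : ℝ) ^ (1 / 12 : ℝ))) with hδ
  refine ⟨m, fun i => F (e i), fun i => hF _, ?_⟩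
  intro Ω _ μ _ ρ v₀
  have hsum : δ * (m + 1) ≤
      ∑ i, μ {ω | AtLeast ((n : ℝ) ^ (Real.logb 2 n / 125)) (ρ ω) (F (e i)) (v₀ ω)} := by
    rw [e.sum_comp fun x => μ {ω | AtLeast ((n : ℝ) ^ (Real.logb 2 n / 125)) (ρ ω) (F x) (v₀ ω)}]
    have h3 := hμ μ ρ v₀
    rw [hm] at h3
    push_cast at h3
    refine le_trans (by gcongr) (h3.trans (sum_le_sum fun x _ => measure_mono ?_))
    intro ω hω N hN
    exact hω N (number_lt n k hk hn1 h2 N hN)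
  refine ⟨hsum, ?_⟩
  by_contra hne
  simp only [not_exists, not_le] at hne
  have h5 : ∑ i, μ {ω | AtLeast ((n : ℝ) ^ (Real.logb 2 n / 125)) (ρ ω) (F (e i)) (v₀ ω)} <
      ∑ _i : Fin (m + 1), δ := by
    apply ENNReal.sum_lt_sum_of_nonempty univ_nonempty
    intro i _
    exact hne i
  rw [sum_const, card_univ, Fintype.card_fin, nsmul_eq_mul, mul_comm] at h5
  push_cast at h5
  exact absurd hsum (not_le.mpr h5)

end Pool.Agent.MP4d246d.Rand
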