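import Pool.Agent.Lib.MP_4d246d_lc.Rand.Dep

/-!
# The ideal run
-/

namespace Pool.Agent.MP4d246d.Rand

open Finset

variable {n : ℕ}

/-- The context of the whole tree. -/
def root (n : ℕ) : Ctx n := ⟨∅, fun _ => false, [], fun _ => false, 0⟩

/-- The context of the leaf `j`. -/
def cx (B : ℕ → Finset (Fin n)) (r : ℕ → Vertex n) (S : Shape) (j : ℕ) : Ctx n :=
  ctxAt B r S 0 (root n) j

/-- The target of the leaf `j`. -/
def gg (B : ℕ → Finset (Fin n)) (r : ℕ → Vertex n) (S : Shape) (j : ℕ) : Vertex n :=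
  tg r (cx B r S j) j

/-- The set of the exit from the leaf `j`. -/
def ex (B : ℕ → Finset (Fin n)) (r : ℕ → Vertex n) (S : Shape) (j : ℕ) : Finset (Fin n) :=
  exitSet B (cx B r S j) j

/-- A small number that determines the vertex. -/
noncomputable def eps (y : Vertex n) : ℝ :=
  ((Fintype.equivFin (Vertex n) y : ℕ) : ℝ) / (2 * (Fintype.card (Vertex n) : ℝ))

theorem card_vertex_pos : (0 : ℝ) < (Fintype.card (Vertex n) : ℝ) := by
  exact_mod_cast Fintype.card_pos

theorem eps_nonneg (y : Vertex n) : 0 ≤ eps y := by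
  have := card_vertex_pos (n := n)
  unfold eps
  positivity

theorem eps_lt (y : Vertex n) : eps y < 1 / 2 := by
  have h1 := card_vertex_pos (n := n)
  have h2 : ((Fintype.equivFin (Vertex n) y : ℕ) : ℝ) < (Fintype.card (Vertex n) : ℝ) := by
    exact_mod_cast (Fintype.equivFin (Vertex n) y).isLt
  unfold eps
  rw [div_lt_div_iff₀ (by positivity) (by norm_num)]
  linarith

theorem eps_inj {y z : Vertex n} (h : eps y = eps z) : y = z := by
  have h1 := card_vertex_pos (n := n)
  unfold eps at h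
  have h2 : ((Fintype.equivFin (Vertex n) y : ℕ) : ℝ) = ((Fintype.equivFin (Vertex n) z : ℕ) : ℝ) := by
    field_simp at h
    exact h
  have h3 : (Fintype.equivFin (Vertex n) y : ℕ) = (Fintype.equivFin (Vertex n) z : ℕ) := by
    exact_mod_cast h2
  exact (Fintype.equivFin (Vertex n)).injective (Fin.ext h3)

/-- What is seen at `y` in a leaf with target `g`. -/
noncomputable def ent (off : ℕ) (g y : Vertex n) : Entry n :=
  (y, ((off + rt g y : ℕ) : ℝ) + eps y, univ.filter fun c => g c ≠ y c)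

/-- The path in a leaf with target `g`. -/
noncomputable def hp (ρ : PivotRule n) (off : ℕ) (g : Vertex n) (s : History n × Vertex n) :
    ℕ → History n × Vertex n
  | 0 => s
  | k + 1 => (ent off g (hp ρ off g s k).2 :: (hp ρ off g s k).1,
      nb (hp ρ off g s k).2 (ρ.pick (ent off g (hp ρ off g s k).2 :: (hp ρ off g s k).1)))

/-- The length of the leg. -/
noncomputable def leg (ρ : PivotRule n) (t : ℕ) (E : Finset (Fin n)) (off : ℕ) (g : Vertex n)
    (s : History n × Vertex n) : ℕ :=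
  sInf {k | wr E g (hp ρ off g s k).2 ≤ t}

/-- The state at the start of the leaf `j`. -/
noncomputable def st (ρ : PivotRule n) (t : ℕ) (B : ℕ → Finset (Fin n)) (r : ℕ → Vertex n)
    (S : Shape) (v₀ : Vertex n) : ℕ → History n × Vertex n
  | 0 => ([], v₀)
  | j + 1 => hp ρ (cx B r S j).off (gg B r S j) (st ρ t B r S v₀ j)
      (leg ρ t (ex B r S j) (cx B r S j).off (gg B r S j) (st ρ t B r S v₀ j))

/-- The vertex after `k` steps in the leaf `j`. -/
noncomputable def pos (ρ : PivotRule n) (t : ℕ) (B : ℕ → Finset (Fin n)) (r : ℕ → Vertex n)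
    (S : Shape) (v₀ : Vertex n) (j k : ℕ) : Vertex n :=
  (hp ρ (cx B r S j).off (gg B r S j) (st ρ t B r S v₀ j) k).2

section leg

variable {ρ : PivotRule n} {t : ℕ} {E : Finset (Fin n)} {off : ℕ} {g : Vertex n}
  {s : History n × Vertex n}

theorem pick_wrong (l : History n) (y : Vertex n) (h : 0 < wr E g y) :
    g (ρ.pick (ent off g y :: l)) ≠ y (ρ.pick (ent off g y :: l)) := by
  have hne : (univ.filter fun c => g c ≠ y c).Nonempty := by
    obtain ⟨c, hc⟩ := card_pos.mp h
    rw [mem_filter] at hc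
    exact ⟨c, by rw [mem_filter]; exact ⟨mem_univ _, fun h => hc.2 h.symm⟩⟩
  have := ρ.pick_mem y (((off + rt g y : ℕ) : ℝ) + eps y) (univ.filter fun c => g c ≠ y c) l hne
  rw [mem_filter] at this
  exact this.2

theorem rt_hp (k : ℕ) (h : ∀ k' < k, t < wr E g (hp ρ off g s k').2) :
    k ≤ rt g (hp ρ off g s k).2 := by
  induction k with
  | zero => exact Nat.zero_le _
  | succ k ih =>
    have h1 := ih (fun k' hk' => h k' (by omega))
    have h2 := h k (Nat.lt_succ_self k)
    have h3 := rt_nb g (hp ρ off g s k).2 _ (pick_wrong (ρ := ρ) (off := off) (hp ρ off g s k).1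
      (hp ρ off g s k).2 (Nat.zero_lt_of_lt h2))
    show k + 1 ≤ rt g (nb (hp ρ off g s k).2 _)
    omega

theorem leg_nonempty : ∃ k ≤ n, wr E g (hp ρ off g s k).2 ≤ t := by
  by_contra hne
  simp only [not_exists, not_and, not_le] at hne
  have h1 := rt_hp (n + 1) (fun k' hk' => hne k' (by omega))
  have h2 := rt_le g (hp ρ off g s (n + 1)).2
  omega

theorem leg_spec : wr E g (hp ρ off g s (leg ρ t E off g s)).2 ≤ t := by
  obtain ⟨k, -, hk⟩ := leg_nonempty (ρ := ρ) (t := t) (E := E) (off := off) (g := g) (s := s)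
  exact Nat.sInf_mem (s := {k | wr E g (hp ρ off g s k).2 ≤ t}) ⟨k, hk⟩

theorem leg_min {k : ℕ} (hk : k < leg ρ t E off g s) : t < wr E g (hp ρ off g s k).2 := by
  by_contra h
  exact Nat.notMem_of_lt_sInf hk (not_lt.mp h)

theorem leg_le : leg ρ t E off g s ≤ n := by
  obtain ⟨k, hkn, hk⟩ := leg_nonempty (ρ := ρ) (t := t) (E := E) (off := off) (g := g) (s := s)
  exact (Nat.sInf_le (s := {k | wr E g (hp ρ off g s k).2 ≤ t}) hk).trans hkn

end leg

variable {ρ : PivotRule n} {t : ℕ} {B B' : ℕ → Finset (Fin n)} {r r' : ℕ → Vertex n} {S : Shape}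
  {v₀ : Vertex n}

/-- The ideal run is in the closed traps. -/
theorem CL_hp {j : ℕ} (h : CL B r t S 0 (root n) j (st ρ t B r S v₀ j).2) (k : ℕ)
    (hk : k ≤ leg ρ t (ex B r S j) (cx B r S j).off (gg B r S j) (st ρ t B r S v₀ j)) :
    CL B r t S 0 (root n) j (pos ρ t B r S v₀ j k) := by
  induction k with
  | zero => exact h
  | succ k ih =>
    have h1 := ih (by omega)
    have h2 := leg_min (Nat.lt_of_succ_le hk)
    exact CL_move S 0 (root n) j _ _ h1 (pick_wrong (ρ := ρ)
      (off := (cx B r S j).off) _ _ (Nat.zero_lt_of_lt h2))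

theorem CL_st {j : ℕ} (hj : j < S.size) : CL B r t S 0 (root n) j (st ρ t B r S v₀ j).2 := by
  induction j with
  | zero => exact CL_first S 0 _ _
  | succ j ih =>
    have h1 := CL_hp (ih (by omega)) _ le_rfl
    exact CL_step S 0 (root n) j _ (Nat.zero_le _) (by omega) h1 leg_spec

/-- The ideal run does not depend on the future. -/
theorem gg_congr {j : ℕ} (hB : ∀ i ≤ j, B i = B' i) (hr : ∀ i ≤ j, r i = r' i) :
    gg B r S j = gg B' r' S j := by
  obtain ⟨h1, h2⟩ := Ax_congr (B := B) (B' := B') (r := r) (r' := r') S 0 (root n) (root n) j rfl rfl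
    hB (fun i hi => hr i hi.le)
  unfold gg tg cx
  rw [h1, h2, hr j le_rfl]

theorem cxA_congr {j : ℕ} (hB : ∀ i ≤ j, B i = B' i) (hr : ∀ i < j, r i = r' i) :
    (cx B r S j).A = (cx B' r' S j).A :=
  (Ax_congr (B := B) (B' := B') (r := r) (r' := r') S 0 (root n) (root n) j rfl rfl hB hr).1

theorem cxoff_congr (j : ℕ) : (cx B r S j).off = (cx B' r' S j).off :=
  off_congr S 0 (root n) (root n) j rfl

theorem st_congr {j : ℕ} (hB : ∀ i ≤ j, B i = B' i) (hr : ∀ i < j, r i = r' i) :
    st ρ t B r S v₀ j = st ρ t B' r' S v₀ j := by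
  induction j with
  | zero => rfl
  | succ j ih =>
    have h1 := ih (fun i hi => hB i (by omega)) (fun i hi => hr i (by omega))
    have h2 : gg B r S j = gg B' r' S j :=
      gg_congr (fun i hi => hB i (by omega)) (fun i hi => hr i (by omega))
    have h3 := cxoff_congr (B := B) (B' := B') (r := r) (r' := r') (S := S) j
    have h4 : (cx B r S j).A = (cx B' r' S j).A :=
      cxA_congr (fun i hi => hB i (by omega)) (fun i hi => hr i (by omega))
    have h5 : ex B r S j = ex B' r' S j := by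
      unfold ex exitSet
      rw [h4, hB (j + 1) le_rfl]
    rw [st, st, h1, h2, h3, h5]

theorem pos_congr {j : ℕ} (hB : ∀ i ≤ j, B i = B' i) (hr : ∀ i ≤ j, r i = r' i) (k : ℕ) :
    pos ρ t B r S v₀ j k = pos ρ t B' r' S v₀ j k := by
  have h1 : st ρ t B r S v₀ j = st ρ t B' r' S v₀ j := st_congr hB (fun i hi => hr i hi.le)
  have h2 : gg B r S j = gg B' r' S j := gg_congr hB hr
  have h3 := cxoff_congr (B := B) (B' := B') (r := r) (r' := r') (S := S) j
  rw [pos, pos, h1, h2, h3]

/-- The future traps with number `P` do not depend on `B i`, `P ≤ i`. -/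
theorem cxF_congr {j P : ℕ} (hjP : j < P) (hB : ∀ i < P, B i = B' i) (R : Finset (Fin n))
    (h : (P, R) ∈ (cx B r S j).F) : (P, R) ∈ (cx B' r' S j).F :=
  F_congr P S 0 (root n) (root n) j rfl (by intro q hq; exact absurd hq List.not_mem_nil)
    (by intro R hR; exact absurd hR List.not_mem_nil) hjP hB R h

theorem cxF_unique {j : ℕ} {p p' : ℕ × Finset (Fin n)} (h : p ∈ (cx B r S j).F)
    (h' : p' ∈ (cx B r S j).F) (he : p.1 = p'.1) : p.2 = p'.2 :=
  unique_at S 0 (root n) j (by intro q hq; exact absurd hq List.not_mem_nil)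
    (by intro q hq; exact absurd hq List.not_mem_nil) p h p' h' he

theorem cxF_future {j : ℕ} (hj : j < S.size) {p : ℕ × Finset (Fin n)} (h : p ∈ (cx B r S j).F) :
    j + 1 ≤ p.1 ∧ (p.1 = j + 1 → p.2 ⊆ (cx B r S j).A) :=
  future_at S 0 (root n) j (Nat.zero_le _) (by omega)
    (by intro q hq; exact absurd hq List.not_mem_nil) p h

theorem cxF_bound {j : ℕ} {p : ℕ × Finset (Fin n)} (h : p ∈ (cx B r S j).F) : p.1 < S.size :=
  bound_at S.size S 0 (root n) j (by omega)
    (by intro q hq; exact absurd hq List.not_mem_nil) p h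

theorem cxF_raw {j : ℕ} {p : ℕ × Finset (Fin n)} (h : p ∈ (cx B r S j).F) {c : Fin n}
    (hc : c ∈ tset B p) : (cx B r S j).w c = r (p.1 - 1) c :=
  w_raw S 0 (root n) j (by intro q hq; exact absurd hq List.not_mem_nil) p h c hc

theorem cxF_level {lev : ℕ → ℕ} (hlev : LevOK lev S 0) {j : ℕ} (hj : j < S.size)
    {p : ℕ × Finset (Fin n)} (h : p ∈ (cx B r S j).F) {i : ℕ} (h1 : j < i) (h2 : i < p.1) :
    lev i < lev p.1 :=
  level_at S 0 (root n) j (Nat.zero_le _) (by omega) hlev
    (by intro q hq; exact absurd hq List.not_mem_nil) p h i h1 h2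

theorem cx_size {σ : ℕ → ℕ} (hσ : ∀ i, (B i).card ≤ σ i) (j : ℕ) :
    (cx B r S j).A.card ≤ pw σ S 0 ∧ ∀ p ∈ (cx B r S j).F, p.2.card ≤ 2 * pw σ S 0 := by
  apply size_at hσ
  · show (∅ : Finset (Fin n)).card + pw σ S 0 ≤ pw σ S 0
    simp
  · intro q hq; exact absurd hq List.not_mem_nil

/-- The entries for the next trap. -/
theorem next_ess {j : ℕ} (hj : j < S.size) {p : ℕ × Finset (Fin n)} (h : p ∈ (cx B r S j).F)
    (hp : p.1 = j + 1) (y : Vertex n) :
    wr (ex B r S j) (gg B r S j) y ≤ ess (tset B p) (gg B r S j) (cx B r S j).w y := by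
  have h1 := (cxF_future hj h).2 hp
  apply card_le_card
  intro c hc
  rw [mem_filter, ex, exitSet, mem_sdiff] at hc
  have h2 : c ∈ tset B p := by
    rw [tset, mem_sdiff, hp]
    exact ⟨hc.1.1, fun h' => hc.1.2 (h1 h')⟩
  have h3 : gg B r S j c = (cx B r S j).w c := by
    rw [cxF_raw h h2, hp, gg, tg, if_neg hc.1.2, Nat.add_sub_cancel]
  rw [mem_filter]
  exact ⟨h2, h3, by rw [← h3]; exact hc.2⟩

end Pool.Agent.MP4d246d.Rand
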