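import Pool.Agent.Lib.MP_4d246d_lc.Rand.Tree

/-!
# The contexts of the leaves
-/

namespace Pool.Agent.MP4d246d.Rand

open Finset

variable {n : ℕ}

/-- The context of the leaf `j`. -/
def ctxAt (B : ℕ → Finset (Fin n)) (r : ℕ → Vertex n) : Shape → ℕ → Ctx n → ℕ → Ctx n
  | .leaf, _, C, _ => C
  | .node S₁ S₂, o, C, j =>
      if j < o + S₁.size then ctxAt B r S₁ o (ctxL B r S₁ o C) j
      else ctxAt B r S₂ (o + S₁.size) (ctxR B r S₁ o C) j

/-- The conditions that a vertex is in all the traps to the right of which the leaf `j` lies. -/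
def CL (B : ℕ → Finset (Fin n)) (r : ℕ → Vertex n) (t : ℕ) :
    Shape → ℕ → Ctx n → ℕ → Vertex n → Prop
  | .leaf, _, _, _, _ => True
  | .node S₁ S₂, o, C, j, y =>
      if j < o + S₁.size then CL B r t S₁ o (ctxL B r S₁ o C) j y
      else wr (trap B S₁ o C.A) (lt B r S₁ o C.A C.x) y ≤ t ∧
        CL B r t S₂ (o + S₁.size) (ctxR B r S₁ o C) j y

variable {B : ℕ → Finset (Fin n)} {r : ℕ → Vertex n} {t : ℕ}

theorem ctxAt_left {S₁ S₂ : Shape} {o : ℕ} {C : Ctx n} {j : ℕ} (h : j < o + S₁.size) :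
    ctxAt B r (.node S₁ S₂) o C j = ctxAt B r S₁ o (ctxL B r S₁ o C) j := by
  rw [ctxAt, if_pos h]

theorem ctxAt_right {S₁ S₂ : Shape} {o : ℕ} {C : Ctx n} {j : ℕ} (h : ¬ j < o + S₁.size) :
    ctxAt B r (.node S₁ S₂) o C j = ctxAt B r S₂ (o + S₁.size) (ctxR B r S₁ o C) j := by
  rw [ctxAt, if_neg h]

theorem CL_left {S₁ S₂ : Shape} {o : ℕ} {C : Ctx n} {j : ℕ} {y : Vertex n} (h : j < o + S₁.size) :
    CL B r t (.node S₁ S₂) o C j y ↔ CL B r t S₁ o (ctxL B r S₁ o C) j y := by
  rw [CL, if_pos h]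

theorem CL_right {S₁ S₂ : Shape} {o : ℕ} {C : Ctx n} {j : ℕ} {y : Vertex n}
    (h : ¬ j < o + S₁.size) :
    CL B r t (.node S₁ S₂) o C j y ↔ wr (trap B S₁ o C.A) (lt B r S₁ o C.A C.x) y ≤ t ∧
        CL B r t S₂ (o + S₁.size) (ctxR B r S₁ o C) j y := by
  rw [CL, if_neg h]

/-- Entries survive. -/
theorem survive (S : Shape) : ∀ (o : ℕ) (C : Ctx n) (j : ℕ), ∀ q ∈ C.F,
    ∃ p ∈ (ctxAt B r S o C j).F, p.1 = q.1 ∧ q.2 ⊆ p.2 ∧
      ∀ c ∈ tset B p, (ctxAt B r S o C j).w c = C.w c := by
  induction S with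
  | leaf => intro o C j q hq; exact ⟨q, hq, rfl, subset_rfl, fun _ _ => rfl⟩
  | node S₁ S₂ ih₁ ih₂ =>
    intro o C j q hq
    have key : ∀ c, ∀ R : Finset (Fin n), q.2 ∪ trap B S₁ o C.A ⊆ R → c ∈ tset B (q.1, R) →
        mix (trap B S₁ o C.A) (lt B r S₁ o C.A C.x) C.w c = C.w c := by
      intro c R hR hc
      apply mix_notMem
      intro hc'
      rw [tset, mem_sdiff] at hc
      exact hc.2 (hR (mem_union_right _ hc'))
    by_cases hj : j < o + S₁.size
    · rw [ctxAt_left hj]
      obtain ⟨p, hp, h1, h2, h3⟩ := ih₁ o (ctxL B r S₁ o C) j (q.1, q.2 ∪ trap B S₁ o C.A)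
        (List.mem_cons_of_mem _ (List.mem_map.mpr ⟨q, hq, rfl⟩))
      refine ⟨p, hp, h1, subset_union_left.trans h2, fun c hc => ?_⟩
      rw [h3 c hc]
      refine key c p.2 h2 ?_
      have : tset B (q.1, p.2) = tset B p := by
        rw [tset, tset, h1]
      rwa [this]
    · rw [ctxAt_right hj]
      obtain ⟨p, hp, h1, h2, h3⟩ := ih₂ (o + S₁.size) (ctxR B r S₁ o C) j
        (q.1, q.2 ∪ trap B S₁ o C.A) (List.mem_map.mpr ⟨q, hq, rfl⟩)
      refine ⟨p, hp, h1, subset_union_left.trans h2, fun c hc => ?_⟩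
      rw [h3 c hc]
      refine key c p.2 h2 ?_
      have : tset B (q.1, p.2) = tset B p := by
        rw [tset, tset, h1]
      rwa [this]

/-- A vertex in the region of the leaf `j`. -/
theorem locate (S : Shape) : ∀ (o : ℕ) (C : Ctx n) (j : ℕ) (y : Vertex n), o ≤ j →
    j < o + S.size → CL B r t S o C j y →
    (∀ p ∈ (ctxAt B r S o C j).F,
      t < ess (tset B p) (tg r (ctxAt B r S o C j) j) (ctxAt B r S o C j).w y) →
    GF B r t S o C y = (tg r (ctxAt B r S o C j) j,
      (ctxAt B r S o C j).off + rt (tg r (ctxAt B r S o C j) j) y) := by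
  classical
  induction S with
  | leaf =>
    intro o C j y hoj hj _ hess
    have hjo : j = o := by
      have : j < o + 1 := hj
      omega
    subst hjo
    rw [GF, if_neg]
    · rfl
    · rintro ⟨p, hp, h⟩
      have := hess p hp
      exact absurd h (not_le.mpr this)
  | node S₁ S₂ ih₁ ih₂ =>
    intro o C j y hoj hj hCL hess
    have hR3 : ¬ ∃ p ∈ C.F, wr (tset B p \ trap B S₁ o C.A) C.w y ≤ t := by
      rintro ⟨q, hq, h⟩
      obtain ⟨p, hp, h1, h2, h3⟩ : ∃ p ∈ (ctxAt B r (.node S₁ S₂) o C j).F, p.1 = q.1 ∧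
          q.2 ∪ trap B S₁ o C.A ⊆ p.2 ∧
          ∀ c ∈ tset B p, (ctxAt B r (.node S₁ S₂) o C j).w c =
            mix (trap B S₁ o C.A) (lt B r S₁ o C.A C.x) C.w c := by
        by_cases hj' : j < o + S₁.size
        · rw [ctxAt_left hj']
          exact survive S₁ o (ctxL B r S₁ o C) j (q.1, q.2 ∪ trap B S₁ o C.A)
            (List.mem_cons_of_mem _ (List.mem_map.mpr ⟨q, hq, rfl⟩))
        · rw [ctxAt_right hj']
          exact survive S₂ (o + S₁.size) (ctxR B r S₁ o C) j
            (q.1, q.2 ∪ trap B S₁ o C.A) (List.mem_map.mpr ⟨q, hq, rfl⟩)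
      have h4 := hess p hp
      have h5 : tset B p ⊆ tset B q \ trap B S₁ o C.A := by
        intro c hc
        rw [tset, mem_sdiff, h1] at hc
        rw [tset, mem_sdiff, mem_sdiff]
        exact ⟨⟨hc.1, fun h' => hc.2 (h2 (mem_union_left _ h'))⟩,
          fun h' => hc.2 (h2 (mem_union_right _ h'))⟩
      have h6 : wr (tset B p) (ctxAt B r (.node S₁ S₂) o C j).w y = wr (tset B p) C.w y := by
        apply wr_congr
        intro c hc
        rw [h3 c hc]
        exact mix_notMem (mem_sdiff.mp (h5 hc)).2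
      have h7 := ess_le_wr (tset B p) (tg r (ctxAt B r (.node S₁ S₂) o C j) j)
        (ctxAt B r (.node S₁ S₂) o C j).w y
      have h8 := wr_mono h5 C.w y
      omega
    by_cases hj' : j < o + S₁.size
    · rw [ctxAt_left hj'] at hess ⊢
      rw [CL_left hj'] at hCL
      -- the trap of this node is not entered
      have hR2 : ¬ wr (trap B S₁ o C.A) (lt B r S₁ o C.A C.x) y ≤ t := by
        intro h
        obtain ⟨p, hp, h1, h2, h3⟩ := survive (B := B) (r := r) S₁ o (ctxL B r S₁ o C) j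
          (o + S₁.size, cl B S₁ o C.A) (List.mem_cons_self ..)
        have h4 := hess p hp
        have h5 : tset B p ⊆ trap B S₁ o C.A := by
          intro c hc
          rw [tset, mem_sdiff, h1] at hc
          rw [trap, mem_sdiff]
          exact ⟨hc.1, fun h' => hc.2 (h2 h')⟩
        have h6 : wr (tset B p) (ctxAt B r S₁ o (ctxL B r S₁ o C) j).w y =
            wr (tset B p) (lt B r S₁ o C.A C.x) y := by
          apply wr_congr
          intro c hc
          rw [h3 c hc]
          exact mix_mem (h5 hc)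
        have h7 := ess_le_wr (tset B p) (tg r (ctxAt B r S₁ o (ctxL B r S₁ o C) j) j)
          (ctxAt B r S₁ o (ctxL B r S₁ o C) j).w y
        have h8 := wr_mono h5 (lt B r S₁ o C.A C.x) y
        omega
      rw [GF, if_neg hR3, if_neg hR2]
      exact ih₁ o (ctxL B r S₁ o C) j y hoj hj' hCL hess
    · rw [ctxAt_right hj'] at hess ⊢
      rw [CL_right hj'] at hCL
      rw [GF, if_neg hR3, if_pos hCL.1]
      refine ih₂ (o + S₁.size) (ctxR B r S₁ o C) j y (not_lt.mp hj') ?_ hCL.2 hess
      have : j < o + (S₁.size + S₂.size) := hj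
      omega

/-- The values of closed coordinates are not changed. -/
theorem closed_at (S : Shape) : ∀ (o : ℕ) (C : Ctx n) (j : ℕ), ∀ c ∈ C.A,
    c ∈ (ctxAt B r S o C j).A ∧ (ctxAt B r S o C j).x c = C.x c := by
  induction S with
  | leaf => intro o C j c hc; exact ⟨hc, rfl⟩
  | node S₁ S₂ ih₁ ih₂ =>
    intro o C j c hc
    by_cases hj : j < o + S₁.size
    · rw [ctxAt_left hj]
      exact ih₁ o (ctxL B r S₁ o C) j c hc
    · rw [ctxAt_right hj]
      obtain ⟨h1, h2⟩ := ih₂ (o + S₁.size) (ctxR B r S₁ o C) j c (mem_union_left _ hc)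
      refine ⟨h1, h2.trans ?_⟩
      show mix _ _ C.x c = C.x c
      exact mix_notMem fun h => (disjoint_left.mp (trap_disjoint B S₁ o C.A)) h hc

theorem tg_closed (S : Shape) (o : ℕ) (C : Ctx n) (j : ℕ) (c : Fin n) (hc : c ∈ C.A) :
    tg r (ctxAt B r S o C j) j c = C.x c := by
  obtain ⟨h1, h2⟩ := closed_at (B := B) (r := r) S o C j c hc
  rw [tg, if_pos h1, h2]

/-- The last leaf. -/
theorem last_A (S : Shape) : ∀ (o : ℕ) (C : Ctx n),
    (ctxAt B r S o C (o + S.size - 1)).A = cl B S o C.A := by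
  induction S with
  | leaf => intro o C; rfl
  | node S₁ S₂ ih₁ ih₂ =>
    intro o C
    have hs := S₂.size_pos
    have e : o + (Shape.node S₁ S₂).size - 1 = o + S₁.size + S₂.size - 1 := by
      show o + (S₁.size + S₂.size) - 1 = _
      omega
    rw [e, ctxAt_right (by omega), ih₂]
    rfl

theorem last_tg (S : Shape) : ∀ (o : ℕ) (C : Ctx n),
    tg r (ctxAt B r S o C (o + S.size - 1)) (o + S.size - 1) = lt B r S o C.A C.x := by
  induction S with
  | leaf => intro o C; rfl
  | node S₁ S₂ ih₁ ih₂ =>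
    intro o C
    have hs := S₂.size_pos
    have e : o + (Shape.node S₁ S₂).size - 1 = o + S₁.size + S₂.size - 1 := by
      show o + (S₁.size + S₂.size) - 1 = _
      omega
    rw [e, ctxAt_right (by omega), ih₂]
    rfl

theorem CL_first (S : Shape) : ∀ (o : ℕ) (C : Ctx n) (y : Vertex n), CL B r t S o C o y := by
  induction S with
  | leaf => intro o C y; trivial
  | node S₁ S₂ ih₁ ih₂ =>
    intro o C y
    have hs := S₁.size_pos
    rw [CL_left (by omega)]
    exact ih₁ o _ y

/-- The set of coordinates of the exit from the leaf `j`. -/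
def exitSet (B : ℕ → Finset (Fin n)) (C : Ctx n) (j : ℕ) : Finset (Fin n) := B (j + 1) \ C.A

theorem CL_step (S : Shape) : ∀ (o : ℕ) (C : Ctx n) (j : ℕ) (y : Vertex n), o ≤ j →
    j + 1 < o + S.size → CL B r t S o C j y →
    wr (exitSet B (ctxAt B r S o C j) j) (tg r (ctxAt B r S o C j) j) y ≤ t →
    CL B r t S o C (j + 1) y := by
  induction S with
  | leaf =>
    intro o C j y hoj hj
    have : j + 1 < o + 1 := hj
    omega
  | node S₁ S₂ ih₁ ih₂ =>
    intro o C j y hoj hj hCL hwr
    have hj2 : j + 1 < o + (S₁.size + S₂.size) := hj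
    by_cases hj' : j < o + S₁.size
    · rw [ctxAt_left hj'] at hwr
      rw [CL_left hj'] at hCL
      by_cases hj1 : j + 1 < o + S₁.size
      · rw [CL_left hj1]
        exact ih₁ o _ j y hoj hj1 hCL hwr
      · rw [CL_right hj1]
        have e : j = o + S₁.size - 1 := by omega
        have e' : j + 1 = o + S₁.size := by omega
        refine ⟨?_, ?_⟩
        · rw [exitSet, e', e, last_A, last_tg] at hwr
          exact hwr
        · rw [e']
          exact CL_first _ _ _ _
    · rw [ctxAt_right hj'] at hwr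
      rw [CL_right hj'] at hCL
      rw [CL_right (by omega)]
      exact ⟨hCL.1, ih₂ (o + S₁.size) _ j y (not_lt.mp hj') (by omega) hCL.2 hwr⟩

theorem CL_move (S : Shape) : ∀ (o : ℕ) (C : Ctx n) (j : ℕ) (y : Vertex n) (c : Fin n),
    CL B r t S o C j y → tg r (ctxAt B r S o C j) j c ≠ y c →
    CL B r t S o C j (nb y c) := by
  induction S with
  | leaf => intro o C j y c _ _; trivial
  | node S₁ S₂ ih₁ ih₂ =>
    intro o C j y c hCL hc
    by_cases hj : j < o + S₁.size
    · rw [ctxAt_left hj] at hc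
      rw [CL_left hj] at hCL ⊢
      exact ih₁ o _ j y c hCL hc
    · rw [ctxAt_right hj] at hc
      rw [CL_right hj] at hCL ⊢
      refine ⟨?_, ih₂ _ _ j y c hCL.2 hc⟩
      refine (wr_nb_le' _ hc ?_).trans hCL.1
      intro b hb
      rw [tg_closed S₂ _ _ j b (mem_union_right _ hb)]
      exact mix_mem hb

/-- The raw vector of the last leaf is seen outside of the closed set. -/
theorem lt_notMem (S : Shape) : ∀ (o : ℕ) (A : Finset (Fin n)) (x : Vertex n) (c : Fin n),
    c ∉ cl B S o A → lt B r S o A x c = r (o + S.size - 1) c := by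
  induction S with
  | leaf =>
    intro o A x c hc
    have hc' : c ∉ A := hc
    show (if c ∈ A then x c else r o c) = r (o + 1 - 1) c
    rw [if_neg hc', Nat.add_sub_cancel]
  | node S₁ S₂ ih₁ ih₂ =>
    intro o A x c hc
    have hs := S₂.size_pos
    have e : o + (Shape.node S₁ S₂).size - 1 = o + S₁.size + S₂.size - 1 := by
      show o + (S₁.size + S₂.size) - 1 = _
      omega
    rw [e]
    exact ih₂ _ _ _ c hc

/-- The values of the common point on the sets of the future traps. -/
theorem w_raw (S : Shape) : ∀ (o : ℕ) (C : Ctx n) (j : ℕ),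
    (∀ q ∈ C.F, ∀ c ∈ tset B q, C.w c = r (q.1 - 1) c) →
    ∀ p ∈ (ctxAt B r S o C j).F, ∀ c ∈ tset B p, (ctxAt B r S o C j).w c = r (p.1 - 1) c := by
  induction S with
  | leaf => intro o C j h; exact h
  | node S₁ S₂ ih₁ ih₂ =>
    intro o C j h
    have hm : ∀ q ∈ C.F, ∀ c ∈ tset B (q.1, q.2 ∪ trap B S₁ o C.A),
        mix (trap B S₁ o C.A) (lt B r S₁ o C.A C.x) C.w c = r (q.1 - 1) c := by
      intro q hq c hc
      rw [tset_union, mem_sdiff] at hc
      rw [mix_notMem hc.2]
      exact h q hq c hc.1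
    by_cases hj : j < o + S₁.size
    · rw [ctxAt_left hj]
      apply ih₁
      intro q hq
      rcases List.mem_cons.mp hq with rfl | hq
      · intro c hc
        have hc' : c ∈ trap B S₁ o C.A := hc
        show mix (trap B S₁ o C.A) (lt B r S₁ o C.A C.x) C.w c = _
        rw [mix_mem hc']
        exact lt_notMem S₁ o C.A C.x c (mem_sdiff.mp hc').2
      · obtain ⟨q', hq', rfl⟩ := List.mem_map.mp hq
        exact hm q' hq'
    · rw [ctxAt_right hj]
      apply ih₂
      intro q hq
      obtain ⟨q', hq', rfl⟩ := List.mem_map.mp hq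
      exact hm q' hq'

/-- The numbers of the future traps. -/
theorem future_at (S : Shape) : ∀ (o : ℕ) (C : Ctx n) (j : ℕ), o ≤ j → j < o + S.size →
    (∀ q ∈ C.F, o + S.size ≤ q.1 ∧ (q.1 = o + S.size → q.2 ⊆ cl B S o C.A)) →
    ∀ p ∈ (ctxAt B r S o C j).F, j + 1 ≤ p.1 ∧
      (p.1 = j + 1 → p.2 ⊆ (ctxAt B r S o C j).A) := by
  induction S with
  | leaf =>
    intro o C j hoj hj h
    have hjo : j = o := by
      have : j < o + 1 := hj
      omega
    subst hjo
    exact h
  | node S₁ S₂ ih₁ ih₂ =>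
    intro o C j hoj hj h
    have hj2 : j < o + (S₁.size + S₂.size) := hj
    have hs := S₂.size_pos
    by_cases hj' : j < o + S₁.size
    · rw [ctxAt_left hj']
      apply ih₁ o _ j hoj hj'
      intro q hq
      rcases List.mem_cons.mp hq with rfl | hq
      · exact ⟨le_rfl, fun _ => subset_rfl⟩
      · obtain ⟨q', hq', rfl⟩ := List.mem_map.mp hq
        have h1 : o + (S₁.size + S₂.size) ≤ q'.1 := (h q' hq').1
        refine ⟨?_, fun h2 => ?_⟩
        · show o + S₁.size ≤ q'.1
          omega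
        · have h3 : q'.1 = o + S₁.size := h2
          omega
    · rw [ctxAt_right hj']
      apply ih₂ _ _ j (not_lt.mp hj') (by omega)
      intro q hq
      obtain ⟨q', hq', rfl⟩ := List.mem_map.mp hq
      have h1 : o + (S₁.size + S₂.size) ≤ q'.1 := (h q' hq').1
      refine ⟨?_, fun h2 => ?_⟩
      · show o + S₁.size + S₂.size ≤ q'.1
        omega
      · have h3 : q'.1 = o + (S₁.size + S₂.size) := by
          have : q'.1 = o + S₁.size + S₂.size := h2
          omega
        have h4 := (h q' hq').2 h3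
        show q'.2 ∪ trap B S₁ o C.A ⊆ cl B S₂ (o + S₁.size) (C.A ∪ trap B S₁ o C.A)
        apply union_subset
        · exact h4
        · exact subset_union_right.trans (subset_cl B S₂ _ _)

/-- There is at most one future trap for each number. -/
theorem unique_at (S : Shape) : ∀ (o : ℕ) (C : Ctx n) (j : ℕ),
    (∀ q ∈ C.F, o + S.size ≤ q.1) → (∀ q ∈ C.F, ∀ q' ∈ C.F, q.1 = q'.1 → q.2 = q'.2) →
    ∀ p ∈ (ctxAt B r S o C j).F, ∀ p' ∈ (ctxAt B r S o C j).F, p.1 = p'.1 → p.2 = p'.2 := by
  induction S with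
  | leaf => intro o C j _ h; exact h
  | node S₁ S₂ ih₁ ih₂ =>
    intro o C j h1 h2
    have h1' : ∀ q ∈ C.F, o + (S₁.size + S₂.size) ≤ q.1 := h1
    have hs := S₂.size_pos
    by_cases hj : j < o + S₁.size
    · rw [ctxAt_left hj]
      apply ih₁
      · intro q hq
        rcases List.mem_cons.mp hq with rfl | hq
        · exact le_rfl
        · obtain ⟨q', hq', rfl⟩ := List.mem_map.mp hq
          have := h1' q' hq'
          show o + S₁.size ≤ q'.1
          omega
      · intro p hp p' hp' hpp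
        rcases List.mem_cons.mp hp with rfl | hp
        · rcases List.mem_cons.mp hp' with rfl | hp'
          · rfl
          · obtain ⟨q', hq', rfl⟩ := List.mem_map.mp hp'
            have := h1' q' hq'
            have : o + S₁.size = q'.1 := hpp
            omega
        · obtain ⟨q, hq, rfl⟩ := List.mem_map.mp hp
          rcases List.mem_cons.mp hp' with rfl | hp'
          · have := h1' q hq
            have : q.1 = o + S₁.size := hpp
            omega
          · obtain ⟨q', hq', rfl⟩ := List.mem_map.mp hp'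
            have : q.2 = q'.2 := h2 q hq q' hq' hpp
            show q.2 ∪ _ = q'.2 ∪ _
            rw [this]
    · rw [ctxAt_right hj]
      apply ih₂
      · intro q hq
        obtain ⟨q', hq', rfl⟩ := List.mem_map.mp hq
        have := h1' q' hq'
        show o + S₁.size + S₂.size ≤ q'.1
        omega
      · intro p hp p' hp' hpp
        obtain ⟨q, hq, rfl⟩ := List.mem_map.mp hp
        obtain ⟨q', hq', rfl⟩ := List.mem_map.mp hp'
        have : q.2 = q'.2 := h2 q hq q' hq' hpp
        show q.2 ∪ _ = q'.2 ∪ _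
        rw [this]

/-- The numbers of the future traps are smaller than `M`. -/
theorem bound_at (M : ℕ) (S : Shape) : ∀ (o : ℕ) (C : Ctx n) (j : ℕ), o + S.size ≤ M →
    (∀ q ∈ C.F, q.1 < M) → ∀ p ∈ (ctxAt B r S o C j).F, p.1 < M := by
  induction S with
  | leaf => intro o C j _ h; exact h
  | node S₁ S₂ ih₁ ih₂ =>
    intro o C j hM h
    have hM' : o + (S₁.size + S₂.size) ≤ M := hM
    have hs := S₂.size_pos
    by_cases hj : j < o + S₁.size
    · rw [ctxAt_left hj]
      apply ih₁ _ _ _ (by omega)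
      intro q hq
      rcases List.mem_cons.mp hq with rfl | hq
      · show o + S₁.size < M
        omega
      · obtain ⟨q', hq', rfl⟩ := List.mem_map.mp hq
        exact h q' hq'
    · rw [ctxAt_right hj]
      apply ih₂ _ _ _ (by omega)
      intro q hq
      obtain ⟨q', hq', rfl⟩ := List.mem_map.mp hq
      exact h q' hq'

/-- Every node has a higher level than the nodes in its left subtree. -/
def LevOK (lev : ℕ → ℕ) : Shape → ℕ → Prop
  | .leaf, _ => True
  | .node S₁ S₂, o => (∀ i, o < i → i < o + S₁.size → lev i < lev (o + S₁.size)) ∧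
      LevOK lev S₁ o ∧ LevOK lev S₂ (o + S₁.size)

theorem level_at {lev : ℕ → ℕ} (S : Shape) : ∀ (o : ℕ) (C : Ctx n) (j : ℕ), o ≤ j →
    j < o + S.size → LevOK lev S o →
    (∀ q ∈ C.F, ∀ i, o < i → i < q.1 → lev i < lev q.1) →
    ∀ p ∈ (ctxAt B r S o C j).F, ∀ i, j < i → i < p.1 → lev i < lev p.1 := by
  induction S with
  | leaf =>
    intro o C j hoj hj _ h p hp i hi
    exact h p hp i (hoj.trans_lt hi)
  | node S₁ S₂ ih₁ ih₂ =>
    intro o C j hoj hj hlev h
    have hj2 : j < o + (S₁.size + S₂.size) := hj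
    by_cases hj' : j < o + S₁.size
    · rw [ctxAt_left hj']
      apply ih₁ o _ j hoj hj' hlev.2.1
      intro q hq
      rcases List.mem_cons.mp hq with rfl | hq
      · exact hlev.1
      · obtain ⟨q', hq', rfl⟩ := List.mem_map.mp hq
        exact h q' hq'
    · rw [ctxAt_right hj']
      apply ih₂ _ _ j (not_lt.mp hj') (by omega) hlev.2.2
      intro q hq i hi
      obtain ⟨q', hq', rfl⟩ := List.mem_map.mp hq
      exact h q' hq' i (by omega)

/-- The maximal weight of a path. -/
def pw (σ : ℕ → ℕ) : Shape → ℕ → ℕ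
  | .leaf, _ => 0
  | .node S₁ S₂, o => σ (o + S₁.size) + max (pw σ S₁ o) (pw σ S₂ (o + S₁.size))

theorem card_cl {σ : ℕ → ℕ} (hσ : ∀ i, (B i).card ≤ σ i) (S : Shape) : ∀ (o : ℕ)
    (A : Finset (Fin n)), (cl B S o A).card ≤ A.card + pw σ S o := by
  induction S with
  | leaf => intro o A; exact Nat.le_add_right _ _
  | node S₁ S₂ ih₁ ih₂ =>
    intro o A
    have h1 := ih₂ (o + S₁.size) (A ∪ (B (o + S₁.size) \ cl B S₁ o A))
    have h2 : (A ∪ (B (o + S₁.size) \ cl B S₁ o A)).card ≤ A.card + σ (o + S₁.size) :=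
      (card_union_le _ _).trans (Nat.add_le_add_left ((card_le_card sdiff_subset).trans (hσ _)) _)
    have h3 := le_max_right (pw σ S₁ o) (pw σ S₂ (o + S₁.size))
    show (cl B S₂ (o + S₁.size) (A ∪ (B (o + S₁.size) \ cl B S₁ o A))).card ≤
      A.card + (σ (o + S₁.size) + max (pw σ S₁ o) (pw σ S₂ (o + S₁.size)))
    omega

theorem size_at {σ : ℕ → ℕ} (hσ : ∀ i, (B i).card ≤ σ i) (T : ℕ) (S : Shape) :
    ∀ (o : ℕ) (C : Ctx n) (j : ℕ), C.A.card + pw σ S o ≤ T →
    (∀ q ∈ C.F, q.2.card + pw σ S o ≤ 2 * T) →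
    (ctxAt B r S o C j).A.card ≤ T ∧ ∀ p ∈ (ctxAt B r S o C j).F, p.2.card ≤ 2 * T := by
  induction S with
  | leaf =>
    intro o C j h1 h2
    exact ⟨h1, h2⟩
  | node S₁ S₂ ih₁ ih₂ =>
    intro o C j h1 h2
    have hpw : pw σ (.node S₁ S₂) o =
      σ (o + S₁.size) + max (pw σ S₁ o) (pw σ S₂ (o + S₁.size)) := rfl
    rw [hpw] at h1 h2
    have h3 := le_max_left (pw σ S₁ o) (pw σ S₂ (o + S₁.size))
    have h4 := le_max_right (pw σ S₁ o) (pw σ S₂ (o + S₁.size))
    have htr : ∀ A : Finset (Fin n), (A ∪ trap B S₁ o C.A).card ≤ A.card + σ (o + S₁.size) :=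
      fun A => (card_union_le _ _).trans
        (Nat.add_le_add_left ((card_le_card sdiff_subset).trans (hσ _)) _)
    by_cases hj : j < o + S₁.size
    · rw [ctxAt_left hj]
      apply ih₁
      · show C.A.card + pw σ S₁ o ≤ T
        omega
      · intro q hq
        rcases List.mem_cons.mp hq with rfl | hq
        · have := card_cl hσ S₁ o C.A
          show (cl B S₁ o C.A).card + pw σ S₁ o ≤ 2 * T
          omega
        · obtain ⟨q', hq', rfl⟩ := List.mem_map.mp hq
          have := htr q'.2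
          have := h2 q' hq'
          show (q'.2 ∪ trap B S₁ o C.A).card + pw σ S₁ o ≤ 2 * T
          omega
    · rw [ctxAt_right hj]
      apply ih₂
      · have := htr C.A
        show (C.A ∪ trap B S₁ o C.A).card + pw σ S₂ (o + S₁.size) ≤ T
        omega
      · intro q hq
        obtain ⟨q', hq', rfl⟩ := List.mem_map.mp hq
        have := htr q'.2
        have := h2 q' hq'
        show (q'.2 ∪ trap B S₁ o C.A).card + pw σ S₂ (o + S₁.size) ≤ 2 * T
        omega

end Pool.Agent.MP4d246d.Rand
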