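import Pool.Agent.Lib.MP_4d246d_lc.Rand.Events

/-!
# If no bad event happens, the run is long
-/

namespace Pool.Agent.MP4d246d.Rand

open Finset

variable {n K : ℕ} (ρ : PivotRule n) (t : ℕ) (S : Shape) (v₀ : Vertex n) (b : ℕ → ℕ)

/-- The conditions on the parameters. -/
structure Params (n K t : ℕ) (S : Shape) (b lev σ : ℕ → ℕ) : Prop where
  K_pos : 0 < K
  dim : 16 * t * K ≤ n
  b_pos : ∀ i, 0 < i → i < S.size → 0 < b i
  b_le : ∀ i, 0 < i → i < S.size → b i ≤ K
  b_lev : ∀ i P, 0 < i → i < P → P < S.size → lev i < lev P → 128 * b i ≤ b P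
  level : LevOK lev S 0
  σ_t : ∀ i, i < S.size → t ≤ σ i
  σ_b : ∀ i, i < S.size → 8 * b i * n ≤ σ i * K
  path : 2 * pw σ S 0 ≤ n
  path_b : ∀ i, 0 < i → i < S.size → 32 * pw σ S 0 * b i ≤ t * K

/-- The indices of the events `E3`. -/
def idx3 (L n : ℕ) : Finset (ℕ × (ℕ × ℕ)) :=
  (range L ×ˢ (range (n + 1) ×ˢ range L)).filter fun p => p.1 + 1 < p.2.2

theorem mem_idx3 {L n : ℕ} {p : ℕ × (ℕ × ℕ)} :
    p ∈ idx3 L n ↔ p.1 < L ∧ p.2.1 < n + 1 ∧ p.2.2 < L ∧ p.1 + 1 < p.2.2 := by
  rw [idx3, mem_filter, mem_product, mem_product, mem_range, mem_range, mem_range]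
  tauto

theorem card_idx3 (L n : ℕ) : (idx3 L n).card ≤ L * ((n + 1) * L) := by
  refine (card_filter_le _ _).trans ?_
  rw [card_product, card_product, card_range, card_range]

/-- Some bad event happens. -/
def Bad (σ : ℕ → ℕ) (d : Data S.size n K) : Prop :=
  (∃ i ∈ range S.size, E0 b σ i d) ∨
  (∃ j ∈ range (S.size - 1), E1 ρ t S v₀ b j d) ∨
  (∃ p ∈ range (S.size - 1) ×ˢ range (n + 1), E2 ρ t S v₀ b p.1 p.2 d) ∨
  (∃ p ∈ idx3 S.size n, E3 ρ t S v₀ b p.1 p.2.1 p.2.2 d)

variable {ρ t S v₀ b} {lev σ : ℕ → ℕ}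

/-- Bad events are rare. -/
theorem bad_small (hp : Params n K t S b lev σ) :
    2 ^ t * cnt (fun d : Data S.size n K => Bad ρ t S v₀ b σ d) ≤
      (4 * S.size ^ 2 * (n + 1)) * Fintype.card (Data S.size n K) := by
  set D := Fintype.card (Data S.size n K) with hD
  have u0 := union_bound (X := Data S.size n K) (range S.size) (fun i d => E0 b σ i d) (2 ^ t) D
    (fun i hi => E0_small t b σ hp.K_pos i (hp.σ_t i (mem_range.mp hi))
      (hp.σ_b i (mem_range.mp hi)))
  have u1 := union_bound (X := Data S.size n K) (range (S.size - 1))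
    (fun j d => E1 ρ t S v₀ b j d) (2 ^ t) D (fun j hj => by
      have hj' := mem_range.mp hj
      exact E1_small ρ t S v₀ b hp.K_pos j (by omega) (hp.b_pos _ (by omega) (by omega))
        (hp.b_le _ (by omega) (by omega)) hp.dim)
  have u2 := union_bound (X := Data S.size n K) (range (S.size - 1) ×ˢ range (n + 1))
    (fun p d => E2 ρ t S v₀ b p.1 p.2 d) (2 ^ t) D (fun p hpp => by
      rw [mem_product, mem_range, mem_range] at hpp
      exact E2_small ρ t S v₀ b hp.K_pos p.1 p.2 (by omega))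
  have u3 := union_bound (X := Data S.size n K) (idx3 S.size n)
    (fun p d => E3 ρ t S v₀ b p.1 p.2.1 p.2.2 d) (2 ^ t) D (fun p hpp => by
      rw [mem_idx3] at hpp
      exact E3_small ρ t S v₀ b hp.K_pos p.1 p.2.1 p.2.2 hpp.2.2.2 hpp.2.2.1
        (hp.b_le _ (by omega) hpp.2.2.1))
  have hcard : cnt (fun d : Data S.size n K => Bad ρ t S v₀ b σ d) ≤
      cnt (fun d : Data S.size n K => ∃ i ∈ range S.size, E0 b σ i d) +
      (cnt (fun d : Data S.size n K => ∃ j ∈ range (S.size - 1), E1 ρ t S v₀ b j d) +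
      (cnt (fun d : Data S.size n K => ∃ p ∈ range (S.size - 1) ×ˢ range (n + 1),
        E2 ρ t S v₀ b p.1 p.2 d) +
      cnt (fun d : Data S.size n K => ∃ p ∈ idx3 S.size n, E3 ρ t S v₀ b p.1 p.2.1 p.2.2 d))) := by
    refine (cnt_or _ _).trans (Nat.add_le_add_left ?_ _)
    refine (cnt_or _ _).trans (Nat.add_le_add_left ?_ _)
    exact cnt_or _ _
  have c0 : (range S.size).card ≤ S.size := (card_range _).le
  have c1 : (range (S.size - 1)).card ≤ S.size := by rw [card_range]; omega
  have c2 : (range (S.size - 1) ×ˢ range (n + 1)).card ≤ S.size * (n + 1) := by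
    rw [card_product, card_range, card_range]
    exact Nat.mul_le_mul_right _ (by omega)
  have c3 := card_idx3 S.size n
  have hs := S.size_pos
  have v0 := u0.trans (Nat.mul_le_mul_right D c0)
  have v1 := u1.trans (Nat.mul_le_mul_right D c1)
  have v2 := u2.trans (Nat.mul_le_mul_right D c2)
  have v3 := u3.trans (Nat.mul_le_mul_right D c3)
  have key : ∀ m a a0 a1 a2 a3 x0 x1 x2 x3 : ℕ, a ≤ a0 + (a1 + (a2 + a3)) → m * a0 ≤ x0 →
      m * a1 ≤ x1 → m * a2 ≤ x2 → m * a3 ≤ x3 → m * a ≤ x0 + x1 + x2 + x3 := by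
    intro m a a0 a1 a2 a3 x0 x1 x2 x3 h h0 h1 h2 h3
    have h4 : m * a ≤ m * (a0 + (a1 + (a2 + a3))) := Nat.mul_le_mul_left _ h
    have h5 : m * (a0 + (a1 + (a2 + a3))) = m * a0 + m * a1 + m * a2 + m * a3 := by ring
    omega
  refine (key _ _ _ _ _ _ _ _ _ _ hcard v0 v1 v2 v3).trans ?_
  calc S.size * D + S.size * D + S.size * (n + 1) * D + S.size * ((n + 1) * S.size) * D
      = (S.size + S.size + S.size * (n + 1) + S.size * ((n + 1) * S.size)) * D := by ring
    _ ≤ (4 * S.size ^ 2 * (n + 1)) * D := by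
        apply Nat.mul_le_mul_right
        have h1 : S.size ≤ S.size ^ 2 * (n + 1) := by nlinarith
        have h2 : S.size * (n + 1) ≤ S.size ^ 2 * (n + 1) := by nlinarith
        have h3 : S.size * ((n + 1) * S.size) = S.size ^ 2 * (n + 1) := by ring
        have h4 : 4 * S.size ^ 2 * (n + 1) = 4 * (S.size ^ 2 * (n + 1)) := by ring
        omega

/-- If no bad event happens, the run is long. -/
theorem long_run (hp : Params n K t S b lev σ) (d : Data S.size n K)
    (hd : ¬ Bad ρ t S v₀ b σ d) {N : ℕ} (hN : N < S.size) :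
    (run ρ (obj (BB b d) (bit d) t S) v₀ N).length = N + 1 := by
  unfold Bad at hd
  simp only [not_or, not_exists, not_and] at hd
  obtain ⟨hd0, hd1, hd2, hd3⟩ := hd
  have hσ : ∀ i, (BB b d i).card ≤ σ i := by
    intro i
    by_cases hi : i < S.size
    · exact not_lt.mp (hd0 i (mem_range.mpr hi))
    · cases i with
      | zero => exact absurd S.size_pos hi
      | succ i =>
        rw [BB, dif_neg hi]
        simp
  have hsize := fun j => cx_size (B := BB b d) (r := bit d) (S := S) hσ j
  apply run_length hN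
  · intro j hj
    by_contra h
    refine hd1 j (mem_range.mpr (by omega)) ⟨?_, not_lt.mp h⟩
    have h1 := (hsize j).1
    have h2 := hp.path
    omega
  · rintro j hj k hk hwr ⟨P, R⟩ hPR
    have hjs : j < S.size := by omega
    have hfut := (cxF_future hjs hPR).1
    have hPS := cxF_bound hPR
    by_cases hP : P = j + 1
    · exact hwr.trans_le (next_ess hjs hPR hP _)
    · have hjP : j + 1 < P := by
        have : j + 1 ≤ P := hfut
        omega
      have hPS' : P < S.size := hPS
      have hlev : lev (j + 1) < lev P := cxF_level hp.level hjs hPR (Nat.lt_succ_self j) hjP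
      have hb := hp.b_lev (j + 1) P (by omega) hjP hPS' hlev
      have hb1 := hp.path_b (j + 1) (by omega) (by omega)
      have hb0 := hp.b_pos (j + 1) (by omega) (by omega)
      have hR : R.card ≤ 2 * pw σ S 0 := (hsize j).2 _ hPR
      set W := wset ρ t S v₀ (BB b d) (bit d) j k with hW
      have h2 : t * K < 8 * b (j + 1) * W.card := by
        by_contra h
        exact hd2 (j, k) (by
          rw [mem_product, mem_range, mem_range]
          exact ⟨by omega, by omega⟩) ⟨not_lt.mp h, hwr⟩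
      have h3 : 4 * pw σ S 0 < W.card := by
        have h4 : 8 * b (j + 1) * (4 * pw σ S 0) < 8 * b (j + 1) * W.card := by
          calc 8 * b (j + 1) * (4 * pw σ S 0) = 32 * pw σ S 0 * b (j + 1) := by ring
            _ ≤ t * K := hb1
            _ < _ := h2
        exact Nat.lt_of_mul_lt_mul_left h4
      have h5 : W.card ≤ 2 * (W \ R).card := by
        have h6 := le_card_sdiff R W
        omega
      have h7 : 8 * t * K ≤ b P * (W \ R).card := by
        have h8 : 128 * b (j + 1) * (W \ R).card ≤ b P * (W \ R).card := Nat.mul_le_mul_right _ hb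
        have h9 : 64 * b (j + 1) * W.card ≤ 128 * b (j + 1) * (W \ R).card := by
          calc 64 * b (j + 1) * W.card ≤ 64 * b (j + 1) * (2 * (W \ R).card) :=
                Nat.mul_le_mul_left _ h5
            _ = 128 * b (j + 1) * (W \ R).card := by ring
        have h10 : 8 * t * K ≤ 64 * b (j + 1) * W.card := by
          calc 8 * t * K = 8 * (t * K) := by ring
            _ ≤ 8 * (8 * b (j + 1) * W.card) := Nat.mul_le_mul_left _ h2.le
            _ = 64 * b (j + 1) * W.card := by ring
        omega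
      have h11 : t < ((W \ R).filter fun c =>
          c ∈ BB b d P ∧ bit d (P - 1) c = gg (BB b d) (bit d) S j c).card := by
        by_contra h
        exact hd3 (j, (k, P)) (mem_idx3.mpr ⟨hjs, Nat.lt_succ_of_le hk, hPS', hjP⟩)
          ⟨R, hPR, h7, not_lt.mp h⟩
      refine h11.trans_le (card_le_card ?_)
      intro c hc
      rw [mem_filter, mem_sdiff, hW, wset, mem_filter] at hc
      obtain ⟨⟨⟨-, -, hwrong⟩, hcR⟩, hcP, hcg⟩ := hc
      have hct : c ∈ tset (BB b d) (P, R) := mem_sdiff.mpr ⟨hcP, hcR⟩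
      have hw : (cx (BB b d) (bit d) S j).w c = gg (BB b d) (bit d) S j c := by
        rw [cxF_raw hPR hct]
        exact hcg
      rw [mem_filter]
      exact ⟨hct, hw.symm, by rw [hw]; exact hwrong⟩

end Pool.Agent.MP4d246d.Rand
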