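import Pool.Agent.Lib.MP_4d246d_lc.Rand.Ideal

/-!
# The real run is the ideal run
-/

namespace Pool.Agent.MP4d246d.Rand

open Finset

variable {n : ℕ}

/-- If `f` increases along all edges towards the target, and the targets separate, then the
improving directions are given by the target. -/
theorem improving_iff (G : Vertex n → Vertex n)
    (hsep : ∀ y z, y ≠ z → ∃ c, y c ≠ z c ∧ G y c = G z c) (f : Vertex n → ℝ)
    (hf : ∀ y c, G y c ≠ y c → f y < f (nb y c)) (y : Vertex n) (c : Fin n) :
    f y < f (nb y c) ↔ G y c ≠ y c := by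
  constructor
  · intro h hc
    obtain ⟨c', h1, h2⟩ := hsep y (nb y c) (nb_ne_self y c).symm
    have hcc : c' = c := by
      by_contra hcc
      exact h1 (nb_ne y hcc).symm
    subst hcc
    have h3 : G (nb y c') c' ≠ nb y c' c' := by rw [← h2, hc]; exact h1
    have h4 := hf (nb y c') c' h3
    rw [nb_nb] at h4
    exact lt_asymm h h4
  · exact hf y c

theorem abstractObjective_of_sep (G : Vertex n → Vertex n)
    (hsep : ∀ y z, y ≠ z → ∃ c, y c ≠ z c ∧ G y c = G z c) (f : Vertex n → ℝ)
    (hinj : Function.Injective f) (hf : ∀ y c, G y c ≠ y c → f y < f (nb y c)) :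
    AbstractObjective f := by
  classical
  refine ⟨hinj, ?_⟩
  intro D v w hw hv
  -- the best vertex of the face
  obtain ⟨z, hz, hmax⟩ := Finset.exists_max_image
    (Finset.univ.filter fun z : Vertex n => ∀ c ∉ D, z c = v c) f ⟨v, by simp⟩
  simp only [Finset.mem_filter, Finset.mem_univ, true_and] at hz hmax
  have hzv : z = v := by
    by_contra hne
    obtain ⟨c, h1, h2⟩ := hsep z v hne
    have hcD : c ∈ D := by
      by_contra hcD
      exact h1 (hz c hcD)
    have h3 : G v c = v c := by
      by_contra h3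
      exact lt_asymm (hv c hcD) (hf v c h3)
    have h4 : G z c ≠ z c := by rw [h2, h3]; exact fun h => h1 h.symm
    have h5 := hf z c h4
    have h6 := hmax (nb z c) (by
      intro b hb
      have : b ≠ c := fun h => hb (h ▸ hcD)
      rw [nb_ne z this]; exact hz b hb)
    linarith
  rw [← hzv]
  exact hmax w hw

theorem run_length_le (ρ : PivotRule n) (v₀ : Vertex n) (f : Vertex n → ℝ) (t : ℕ) :
    (run ρ f v₀ (t + 1)).length ≤ (run ρ f v₀ t).length + 1 := by
  rw [run]
  cases hr : run ρ f v₀ t with
  | nil => simp [step]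
  | cons e l =>
    obtain ⟨v, x, γ⟩ := e
    simp only [step]
    split_ifs <;> simp

theorem run_length_le' (ρ : PivotRule n) (v₀ : Vertex n) (f : Vertex n → ℝ) (t k : ℕ) :
    (run ρ f v₀ (t + k)).length ≤ (run ρ f v₀ t).length + k := by
  induction k with
  | zero => simp
  | succ k ih =>
    have := run_length_le ρ v₀ f (t + k)
    rw [← add_assoc]; omega

theorem run_length_le_succ (ρ : PivotRule n) (v₀ : Vertex n) (f : Vertex n → ℝ) (t : ℕ) :
    (run ρ f v₀ t).length ≤ t + 1 := by
  have := run_length_le' ρ v₀ f 0 t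
  have h0 : (run ρ f v₀ 0).length = 1 := rfl
  rw [zero_add, h0] at this
  omega

/-- The objective function. -/
noncomputable def obj (B : ℕ → Finset (Fin n)) (r : ℕ → Vertex n) (t : ℕ) (S : Shape)
    (y : Vertex n) : ℝ := ((GF B r t S 0 (root n) y).2 : ℝ) + eps y

section obj

variable (B : ℕ → Finset (Fin n)) (r : ℕ → Vertex n) (t : ℕ) (S : Shape)

theorem good_root : Good B t (root n) (GF B r t S 0 (root n)) (bd n S) :=
  good B r t S 0 (root n) (by intro c hc; exact absurd hc (notMem_empty c))

theorem dom_root (y : Vertex n) : Dom B t (root n) y := by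
  intro p hp; exact absurd hp List.not_mem_nil

theorem obj_sep (y z : Vertex n) (h : y ≠ z) :
    ∃ c, y c ≠ z c ∧ (GF B r t S 0 (root n) y).1 c = (GF B r t S 0 (root n) z).1 c :=
  (good_root B r t S).sep y z (dom_root B t y) (dom_root B t z) h

theorem obj_lt (y : Vertex n) (c : Fin n) (h : (GF B r t S 0 (root n) y).1 c ≠ y c) :
    obj B r t S y < obj B r t S (nb y c) := by
  have h1 := (good_root B r t S).mono y c (dom_root B t y) (dom_root B t _) h
  have h2 : ((GF B r t S 0 (root n) y).2 : ℝ) + 1 ≤ (GF B r t S 0 (root n) (nb y c)).2 := by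
    exact_mod_cast h1
  have h3 := eps_nonneg (nb y c)
  have h4 := eps_lt y
  unfold obj
  linarith

theorem obj_injective : Function.Injective (obj B r t S) := by
  intro y z h
  have h1 := eps_nonneg y
  have h2 := eps_nonneg z
  have h3 := eps_lt y
  have h4 := eps_lt z
  unfold obj at h
  have h5 : (GF B r t S 0 (root n) y).2 = (GF B r t S 0 (root n) z).2 := by
    have g1 : ((GF B r t S 0 (root n) y).2 : ℝ) < (GF B r t S 0 (root n) z).2 + 1 := by linarith
    have g2 : ((GF B r t S 0 (root n) z).2 : ℝ) < (GF B r t S 0 (root n) y).2 + 1 := by linarith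
    have g3 : (GF B r t S 0 (root n) y).2 < (GF B r t S 0 (root n) z).2 + 1 := by exact_mod_cast g1
    have g4 : (GF B r t S 0 (root n) z).2 < (GF B r t S 0 (root n) y).2 + 1 := by exact_mod_cast g2
    omega
  rw [h5] at h
  exact eps_inj (by linarith)

theorem obj_abstract : AbstractObjective (obj B r t S) :=
  abstractObjective_of_sep _ (obj_sep B r t S) _ (obj_injective B r t S) (obj_lt B r t S)

/-- What is seen in a leaf. -/
theorem see_obj (y g : Vertex n) (off : ℕ) (h : GF B r t S 0 (root n) y = (g, off + rt g y)) :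
    see (obj B r t S) y = ent off g y := by
  have h1 : obj B r t S y = ((off + rt g y : ℕ) : ℝ) + eps y := by
    unfold obj
    rw [h]
  have h2 : improving (obj B r t S) y = univ.filter fun c => g c ≠ y c := by
    unfold improving
    apply filter_congr
    intro c _
    rw [improving_iff _ (obj_sep B r t S) _ (obj_lt B r t S), h]
  unfold see ent
  rw [h1, h2]

end obj

variable {ρ : PivotRule n} {t : ℕ} {B : ℕ → Finset (Fin n)} {r : ℕ → Vertex n} {S : Shape}
  {v₀ : Vertex n}

theorem step_ent (f : Vertex n → ℝ) (off : ℕ) (g y : Vertex n) (l : History n)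
    (h : ∃ c, g c ≠ y c) :
    step ρ f (ent off g y :: l) = see f (nb y (ρ.pick (ent off g y :: l))) :: ent off g y :: l := by
  classical
  have hne : (univ.filter fun c => g c ≠ y c).Nonempty := by
    obtain ⟨c, hc⟩ := h
    exact ⟨c, by rw [mem_filter]; exact ⟨mem_univ _, hc⟩⟩
  exact if_pos hne

/-- One leg of the real run. -/
theorem run_leg (f : Vertex n → ℝ) (off : ℕ) (g : Vertex n) (s : History n × Vertex n) (T : ℕ)
    (hT : run ρ f v₀ T = see f s.2 :: s.1) (k : ℕ)
    (hk : ∀ k' < k, see f (hp ρ off g s k').2 = ent off g (hp ρ off g s k').2 ∧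
      ∃ c, g c ≠ (hp ρ off g s k').2 c) :
    run ρ f v₀ (T + k) = see f (hp ρ off g s k).2 :: (hp ρ off g s k).1 := by
  induction k with
  | zero => exact hT
  | succ k ih =>
    have h1 := ih (fun k' hk' => hk k' (by omega))
    obtain ⟨h2, h3⟩ := hk k (Nat.lt_succ_self k)
    rw [← add_assoc, run, h1, h2, step_ent f off g _ _ h3]
    rfl

/-- The real run is the ideal run, as long as the future traps are seen. -/
theorem run_st {J : ℕ} (hJ : J < S.size)
    (hstart : ∀ j < J, t < wr (ex B r S j) (gg B r S j) (pos ρ t B r S v₀ j 0))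
    (hsee : ∀ j < J, ∀ k ≤ n, t < wr (ex B r S j) (gg B r S j) (pos ρ t B r S v₀ j k) →
      ∀ p ∈ (cx B r S j).F,
        t < ess (tset B p) (gg B r S j) (cx B r S j).w (pos ρ t B r S v₀ j k)) :
    ∃ T, J ≤ T ∧ run ρ (obj B r t S) v₀ T =
      see (obj B r t S) (st ρ t B r S v₀ J).2 :: (st ρ t B r S v₀ J).1 ∧
      (st ρ t B r S v₀ J).1.length = T := by
  induction J with
  | zero => exact ⟨0, le_rfl, rfl, rfl⟩
  | succ J ih =>
    obtain ⟨T, h1, h2, h3⟩ := ih (by omega) (fun j hj => hstart j (by omega))
      (fun j hj => hsee j (by omega))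
    set K := leg ρ t (ex B r S J) (cx B r S J).off (gg B r S J) (st ρ t B r S v₀ J) with hK
    have hKpos : 0 < K := by
      by_contra h0
      have h0' : K = 0 := by omega
      have h4 := leg_spec (ρ := ρ) (t := t) (E := ex B r S J) (off := (cx B r S J).off)
        (g := gg B r S J) (s := st ρ t B r S v₀ J)
      rw [← hK, h0'] at h4
      have h5 := hstart J (Nat.lt_succ_self J)
      exact absurd h4 (not_le.mpr h5)
    have hKn : K ≤ n := leg_le
    refine ⟨T + K, by omega, ?_, ?_⟩
    · refine run_leg _ _ _ _ T h2 K ?_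
      intro k hk
      have h4 : t < wr (ex B r S J) (gg B r S J) (pos ρ t B r S v₀ J k) := leg_min hk
      refine ⟨?_, ?_⟩
      · apply see_obj
        apply locate S 0 (root n) J _ (Nat.zero_le _) (by omega)
        · exact CL_hp (CL_st (by omega)) k hk.le
        · exact hsee J (Nat.lt_succ_self J) k (by omega) h4
      · obtain ⟨c, hc⟩ := card_pos.mp (Nat.zero_lt_of_lt h4)
        rw [mem_filter] at hc
        exact ⟨c, fun h => hc.2 h.symm⟩
    · have h4 : ∀ k, (hp ρ (cx B r S J).off (gg B r S J) (st ρ t B r S v₀ J) k).1.length =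
          T + k := by
        intro k
        induction k with
        | zero => exact h3
        | succ k ih =>
          show (_ :: (hp ρ (cx B r S J).off (gg B r S J) (st ρ t B r S v₀ J) k).1).length = _
          rw [List.length_cons, ih, add_assoc]
      exact h4 K

/-- Many pivots. -/
theorem run_length {N : ℕ} (hN : N < S.size)
    (hstart : ∀ j < N, t < wr (ex B r S j) (gg B r S j) (pos ρ t B r S v₀ j 0))
    (hsee : ∀ j < N, ∀ k ≤ n, t < wr (ex B r S j) (gg B r S j) (pos ρ t B r S v₀ j k) →
      ∀ p ∈ (cx B r S j).F,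
        t < ess (tset B p) (gg B r S j) (cx B r S j).w (pos ρ t B r S v₀ j k)) :
    (run ρ (obj B r t S) v₀ N).length = N + 1 := by
  obtain ⟨T, h1, h2, h3⟩ := run_st hN hstart hsee
  have h4 : (run ρ (obj B r t S) v₀ T).length = T + 1 := by
    rw [h2, List.length_cons, h3]
  have h5 := run_length_le' ρ v₀ (obj B r t S) N (T - N)
  have h6 : N + (T - N) = T := by omega
  rw [h6, h4] at h5
  have h7 := run_length_le_succ ρ v₀ (obj B r t S) N
  omega

end Pool.Agent.MP4d246d.Rand
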