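import Pool.Agent.Lib.MP_4d246d_lc.Rand.Defs

/-!
# Orientations from binary trees of traps

A binary tree whose leaves (legs) are numbered from left to right. The leg `j` has a target, which
agrees with older targets on the closed coordinates and with the raw vector `r j` elsewhere. The
inner node between the legs `j` and `j + 1` has the number `j + 1` and a set of coordinates
`B (j + 1)`; its trap is entered when at most `t` of its coordinates are wrong.
-/

namespace Pool.Agent.MP4d246d.Rand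

open Finset

variable {n : ℕ}

/-- Binary trees. -/
inductive Shape : Type where
  | leaf : Shape
  | node : Shape → Shape → Shape

/-- The number of leaves. -/
def Shape.size : Shape → ℕ
  | .leaf => 1
  | .node S₁ S₂ => S₁.size + S₂.size

theorem Shape.size_pos : ∀ S : Shape, 0 < S.size
  | .leaf => Nat.one_pos
  | .node S₁ _ => Nat.add_pos_left (Shape.size_pos S₁) _

/-- The closed set at the last leaf of `S`, if `A` is closed before. -/
def cl (B : ℕ → Finset (Fin n)) : Shape → ℕ → Finset (Fin n) → Finset (Fin n)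
  | .leaf, _, A => A
  | .node S₁ S₂, o, A =>
      cl B S₂ (o + S₁.size) (A ∪ (B (o + S₁.size) \ cl B S₁ o A))

/-- The target at the last leaf of `S`, if `A` is closed before with values `x`. -/
def lt (B : ℕ → Finset (Fin n)) (r : ℕ → Vertex n) :
    Shape → ℕ → Finset (Fin n) → Vertex n → Vertex n
  | .leaf, o, A, x => fun c => if c ∈ A then x c else r o c
  | .node S₁ S₂, o, A, x =>
      lt B r S₂ (o + S₁.size) (A ∪ (B (o + S₁.size) \ cl B S₁ o A))
        (fun c => if c ∈ B (o + S₁.size) \ cl B S₁ o A then lt B r S₁ o A x c else x c)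

/-- The effective trap of the node with left subtree `S₁`. -/
def trap (B : ℕ → Finset (Fin n)) (S₁ : Shape) (o : ℕ) (A : Finset (Fin n)) : Finset (Fin n) :=
  B (o + S₁.size) \ cl B S₁ o A

/-- A context: closed set, its values, the future traps, their common point, an offset. -/
structure Ctx (n : ℕ) where
  A : Finset (Fin n)
  x : Vertex n
  F : List (ℕ × Finset (Fin n))
  w : Vertex n
  off : ℕ

/-- The set of coordinates of a future trap. -/
def tset (B : ℕ → Finset (Fin n)) (p : ℕ × Finset (Fin n)) : Finset (Fin n) := B p.1 \ p.2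

/-- An upper bound of the number of ranks used by a tree. -/
def bd (n : ℕ) : Shape → ℕ
  | .leaf => 2 * n + 2
  | .node S₁ S₂ => bd n S₁ + bd n S₂ + n + 1

/-- the mix of `x'` on `B'` and `x` elsewhere -/
def mix (B' : Finset (Fin n)) (x' x : Vertex n) : Vertex n := fun c => if c ∈ B' then x' c else x c

theorem mix_mem {B' : Finset (Fin n)} {x' x : Vertex n} {c : Fin n} (h : c ∈ B') :
    mix B' x' x c = x' c := by simp [mix, h]

theorem mix_notMem {B' : Finset (Fin n)} {x' x : Vertex n} {c : Fin n} (h : c ∉ B') :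
    mix B' x' x c = x c := by simp [mix, h]

/-- Context of the left child. -/
def ctxL (B : ℕ → Finset (Fin n)) (r : ℕ → Vertex n) (S₁ : Shape) (o : ℕ) (C : Ctx n) : Ctx n where
  A := C.A
  x := C.x
  F := (o + S₁.size, cl B S₁ o C.A) :: C.F.map fun p => (p.1, p.2 ∪ trap B S₁ o C.A)
  w := mix (trap B S₁ o C.A) (lt B r S₁ o C.A C.x) C.w
  off := C.off

/-- Context of the right child. -/
def ctxR (B : ℕ → Finset (Fin n)) (r : ℕ → Vertex n) (S₁ : Shape) (o : ℕ) (C : Ctx n) : Ctx n where
  A := C.A ∪ trap B S₁ o C.A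
  x := mix (trap B S₁ o C.A) (lt B r S₁ o C.A C.x) C.x
  F := C.F.map fun p => (p.1, p.2 ∪ trap B S₁ o C.A)
  w := mix (trap B S₁ o C.A) (lt B r S₁ o C.A C.x) C.w
  off := C.off + bd n S₁

/-- The number of right coordinates. -/
def rt (w y : Vertex n) : ℕ := (univ.filter fun c => y c = w c).card

/-- The target of a leaf. -/
def tg (r : ℕ → Vertex n) (C : Ctx n) (o : ℕ) : Vertex n := fun c => if c ∈ C.A then C.x c else r o c

/-- The number of wrong essential coordinates. -/
def ess (D : Finset (Fin n)) (g w y : Vertex n) : ℕ := (D.filter fun c => g c = w c ∧ y c ≠ w c).card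

/-- The number of wrong coordinates. -/
def wr (D : Finset (Fin n)) (w y : Vertex n) : ℕ := (D.filter fun c => y c ≠ w c).card

open Classical in
/-- Target and rank of all vertices. -/
noncomputable def GF (B : ℕ → Finset (Fin n)) (r : ℕ → Vertex n) (t : ℕ) :
    Shape → ℕ → Ctx n → Vertex n → Vertex n × ℕ
  | .leaf, o, C, y =>
      if ∃ p ∈ C.F, ess (tset B p) (tg r C o) C.w y ≤ t then (C.w, C.off + (n + 1 + rt C.w y))
      else (tg r C o, C.off + rt (tg r C o) y)
  | .node S₁ S₂, o, C, y =>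
      if ∃ p ∈ C.F, wr (tset B p \ trap B S₁ o C.A) C.w y ≤ t then
        (C.w, C.off + (bd n S₁ + bd n S₂ + rt C.w y))
      else if wr (trap B S₁ o C.A) (lt B r S₁ o C.A C.x) y ≤ t then
        GF B r t S₂ (o + S₁.size) (ctxR B r S₁ o C) y
      else GF B r t S₁ o (ctxL B r S₁ o C) y

/-- The domain of a context. -/
def Dom (B : ℕ → Finset (Fin n)) (t : ℕ) (C : Ctx n) (y : Vertex n) : Prop :=
  ∀ p ∈ C.F, t < wr (tset B p) C.w y

/-- What the recursion proves. -/
structure Good (B : ℕ → Finset (Fin n)) (t : ℕ) (C : Ctx n) (G : Vertex n → Vertex n × ℕ) (b : ℕ) :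
    Prop where
  closed : ∀ y, Dom B t C y → ∀ c ∈ C.A, (G y).1 c = C.x c
  sees : ∀ y, Dom B t C y → ∀ p ∈ C.F, t < ess (tset B p) (G y).1 C.w y
  sep : ∀ y z, Dom B t C y → Dom B t C z → y ≠ z → ∃ c, y c ≠ z c ∧ (G y).1 c = (G z).1 c
  mono : ∀ y c, Dom B t C y → Dom B t C (nb y c) → (G y).1 c ≠ y c → (G y).2 < (G (nb y c)).2
  lo : ∀ y, Dom B t C y → C.off ≤ (G y).2
  hi : ∀ y, Dom B t C y → (G y).2 < C.off + b

theorem nb_self (y : Vertex n) (c : Fin n) : nb y c c = !y c := by simp [nb]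

theorem nb_ne (y : Vertex n) {c b : Fin n} (h : b ≠ c) : nb y c b = y b := by
  simp [nb, Function.update_of_ne h]

theorem nb_nb (y : Vertex n) (c : Fin n) : nb (nb y c) c = y := by
  simp [nb]

theorem bool_flip {a b : Bool} (h : a ≠ b) : (!a) = b := by
  cases a <;> cases b <;> simp_all

theorem bool_not_ne (a : Bool) : (!a) ≠ a := by cases a <;> simp

theorem nb_ne_self (y : Vertex n) (c : Fin n) : nb y c ≠ y := by
  intro h
  have := congrFun h c
  rw [nb_self] at this
  exact bool_not_ne _ this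

theorem rt_le (w y : Vertex n) : rt w y ≤ n := by
  calc rt w y ≤ (univ : Finset (Fin n)).card := card_le_card (filter_subset _ _)
    _ = n := by simp

/-- a step towards `w` -/
theorem rt_nb (w y : Vertex n) (c : Fin n) (hc : w c ≠ y c) : rt w (nb y c) = rt w y + 1 := by
  classical
  have h2 : (univ.filter fun b => nb y c b = w b) = insert c (univ.filter fun b => y b = w b) := by
    ext b
    simp only [mem_filter, mem_univ, true_and, mem_insert]
    by_cases hbc : b = c
    · subst hbc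
      rw [nb_self]
      constructor
      · intro _; left; rfl
      · intro _
        exact bool_flip hc.symm
    · rw [nb_ne y hbc]; simp [hbc]
  have h3 : c ∉ (univ.filter fun b => y b = w b) := by
    simp only [mem_filter, mem_univ, true_and]
    exact fun h => hc h.symm
  rw [rt, h2, card_insert_of_notMem h3, rt]

/-- wrong coordinates do not increase in a step towards `w` -/
theorem wrong_nb {w y : Vertex n} {c b : Fin n} (hc : w c ≠ y c) (h : nb y c b ≠ w b) :
    y b ≠ w b := by
  by_cases hbc : b = c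
  · subst hbc
    exact fun h' => hc h'.symm
  · rwa [nb_ne y hbc] at h

theorem wr_nb_le (D : Finset (Fin n)) {w y : Vertex n} {c : Fin n} (hc : w c ≠ y c) :
    wr D w (nb y c) ≤ wr D w y := by
  apply card_le_card
  intro b hb
  rw [mem_filter] at hb ⊢
  exact ⟨hb.1, wrong_nb hc hb.2⟩

theorem wr_nb_le' (D : Finset (Fin n)) {g w y : Vertex n} {c : Fin n} (hc : g c ≠ y c)
    (hgw : ∀ b ∈ D, g b = w b) : wr D w (nb y c) ≤ wr D w y := by
  apply card_le_card
  intro b hb
  rw [mem_filter] at hb ⊢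
  refine ⟨hb.1, ?_⟩
  rw [← hgw b hb.1] at hb ⊢
  exact wrong_nb hc hb.2

theorem ess_nb_le (D : Finset (Fin n)) {g w y : Vertex n} {c : Fin n} (hc : w c ≠ y c) :
    ess D g w (nb y c) ≤ ess D g w y := by
  apply card_le_card
  intro b hb
  rw [mem_filter] at hb ⊢
  exact ⟨hb.1, hb.2.1, wrong_nb hc hb.2.2⟩

theorem ess_le_wr (D : Finset (Fin n)) (g w y : Vertex n) : ess D g w y ≤ wr D w y := by
  apply card_le_card
  intro b hb
  rw [mem_filter] at hb ⊢
  exact ⟨hb.1, hb.2.2⟩

theorem wr_mono {D E : Finset (Fin n)} (h : D ⊆ E) (w y : Vertex n) : wr D w y ≤ wr E w y :=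
  card_le_card (filter_subset_filter _ h)

theorem wr_congr {D : Finset (Fin n)} {w w' : Vertex n} (h : ∀ c ∈ D, w c = w' c) (y : Vertex n) :
    wr D w y = wr D w' y := by
  unfold wr
  congr 1
  apply filter_congr
  intro c hc
  rw [h c hc]

theorem ess_congr {D : Finset (Fin n)} {w w' : Vertex n} (h : ∀ c ∈ D, w c = w' c)
    (g y : Vertex n) : ess D g w y = ess D g w' y := by
  unfold ess
  congr 1
  apply filter_congr
  intro c hc
  rw [h c hc]

/-- Finding a separating coordinate: `z` has more essential wrong coordinates than `y` has wrong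
ones. -/
theorem exists_sep {D : Finset (Fin n)} {w y z gz : Vertex n} {t : ℕ} (hy : wr D w y ≤ t)
    (hz : t < ess D gz w z) : ∃ c ∈ D, y c = w c ∧ z c ≠ w c ∧ gz c = w c := by
  by_contra hne
  simp only [not_exists, not_and] at hne
  have : ess D gz w z ≤ wr D w y := by
    apply card_le_card
    intro c hc
    rw [mem_filter] at hc ⊢
    refine ⟨hc.1, fun h => ?_⟩
    exact hne c hc.1 h hc.2.2 hc.2.1
  omega

theorem subset_cl (B : ℕ → Finset (Fin n)) : ∀ (S : Shape) (o : ℕ) (A : Finset (Fin n)),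
    A ⊆ cl B S o A
  | .leaf, _, _ => subset_rfl
  | .node S₁ S₂, o, A => by
      rw [cl]
      exact subset_union_left.trans (subset_cl B S₂ _ _)

theorem trap_disjoint (B : ℕ → Finset (Fin n)) (S₁ : Shape) (o : ℕ) (A : Finset (Fin n)) :
    Disjoint (trap B S₁ o A) A := by
  rw [disjoint_left]
  intro c hc hcA
  rw [trap, mem_sdiff] at hc
  exact hc.2 (subset_cl B S₁ o A hcA)

theorem tset_union (B : ℕ → Finset (Fin n)) (p : ℕ × Finset (Fin n)) (D : Finset (Fin n)) :
    tset B (p.1, p.2 ∪ D) = tset B p \ D := by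
  ext c
  simp only [tset, mem_sdiff, mem_union, not_or, and_assoc]

theorem leaf_good (B : ℕ → Finset (Fin n)) (r : ℕ → Vertex n) (t : ℕ) (o : ℕ) (C : Ctx n)
    (hC : ∀ c ∈ C.A, C.w c = C.x c) : Good B t C (GF B r t .leaf o C) (bd n .leaf) := by
  classical
  set g := tg r C o with hg
  have hgA : ∀ c ∈ C.A, g c = C.x c := fun c hc => by simp [hg, tg, hc]
  let bad : Vertex n → Prop := fun y => ∃ p ∈ C.F, ess (tset B p) g C.w y ≤ t
  have h1 : ∀ y, bad y → GF B r t .leaf o C y = (C.w, C.off + (n + 1 + rt C.w y)) := by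
    intro y hy
    simp only [GF]
    rw [if_pos hy]
  have h0 : ∀ y, ¬ bad y → GF B r t .leaf o C y = (g, C.off + rt g y) := by
    intro y hy
    simp only [GF]
    rw [if_neg hy]
  have hbd : bd n .leaf = 2 * n + 2 := rfl
  refine ⟨?_, ?_, ?_, ?_, ?_, ?_⟩
  · intro y _ c hc
    by_cases hb : bad y
    · rw [h1 y hb]; exact hC c hc
    · rw [h0 y hb]; exact hgA c hc
  · intro y hy p hp
    by_cases hb : bad y
    · rw [h1 y hb]
      have : ess (tset B p) C.w C.w y = wr (tset B p) C.w y := by simp [ess, wr]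
      show t < ess (tset B p) C.w C.w y
      rw [this]
      exact hy p hp
    · rw [h0 y hb]
      by_contra hlt
      exact hb ⟨p, hp, not_lt.mp hlt⟩
  · -- separation
    have key : ∀ y z, bad y → ¬ bad z → ∃ c, y c ≠ z c ∧ C.w c = g c := by
      rintro y z ⟨p, hp, hy⟩ hz
      have hz' : t < ess (tset B p) g C.w z := by
        by_contra hlt
        exact hz ⟨p, hp, not_lt.mp hlt⟩
      have : ∃ c ∈ (tset B p).filter (fun c => g c = C.w c ∧ z c ≠ C.w c),
          c ∉ (tset B p).filter (fun c => g c = C.w c ∧ y c ≠ C.w c) := by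
        by_contra hne
        simp only [not_exists, not_and, not_not] at hne
        have := card_le_card (show (tset B p).filter (fun c => g c = C.w c ∧ z c ≠ C.w c) ⊆ _
          from hne)
        unfold ess at hy hz'
        omega
      obtain ⟨c, hc, hc'⟩ := this
      rw [mem_filter] at hc hc'
      refine ⟨c, ?_, hc.2.1.symm⟩
      intro h
      exact hc' ⟨hc.1, hc.2.1, by rw [h]; exact hc.2.2⟩
    intro y z _ _ hne
    by_cases hb : bad y
    · by_cases hb' : bad z
      · obtain ⟨c, hc⟩ := Function.ne_iff.mp hne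
        exact ⟨c, hc, by rw [h1 y hb, h1 z hb']⟩
      · obtain ⟨c, hc, h⟩ := key y z hb hb'
        exact ⟨c, hc, by rw [h1 y hb, h0 z hb']; exact h⟩
    · by_cases hb' : bad z
      · obtain ⟨c, hc, h⟩ := key z y hb' hb
        exact ⟨c, hc.symm, by rw [h1 z hb', h0 y hb]; exact h.symm⟩
      · obtain ⟨c, hc⟩ := Function.ne_iff.mp hne
        exact ⟨c, hc, by rw [h0 y hb, h0 z hb']⟩
  · intro y c _ _ hc
    by_cases hb : bad y
    · rw [h1 y hb] at hc ⊢
      have hb' : bad (nb y c) := by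
        obtain ⟨p, hp, hy⟩ := hb
        exact ⟨p, hp, (ess_nb_le _ hc).trans hy⟩
      rw [h1 _ hb']
      have := rt_nb C.w y c hc
      show C.off + (n + 1 + rt C.w y) < C.off + (n + 1 + rt C.w (nb y c))
      omega
    · rw [h0 y hb] at hc ⊢
      by_cases hb' : bad (nb y c)
      · rw [h1 _ hb']
        have := rt_le g y
        show C.off + rt g y < C.off + (n + 1 + rt C.w (nb y c))
        omega
      · rw [h0 _ hb']
        have := rt_nb g y c hc
        show C.off + rt g y < C.off + rt g (nb y c)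
        omega
  · intro y _
    by_cases hb : bad y
    · rw [h1 y hb]; exact Nat.le_add_right _ _
    · rw [h0 y hb]; exact Nat.le_add_right _ _
  · intro y _
    by_cases hb : bad y
    · rw [h1 y hb, hbd]
      have := rt_le C.w y
      show C.off + (n + 1 + rt C.w y) < _
      omega
    · rw [h0 y hb, hbd]
      have := rt_le g y
      show C.off + rt g y < _
      omega

theorem node_good (B : ℕ → Finset (Fin n)) (r : ℕ → Vertex n) (t : ℕ) (S₁ S₂ : Shape) (o : ℕ)
    (C : Ctx n) (hC : ∀ c ∈ C.A, C.w c = C.x c)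
    (I₁ : Good B t (ctxL B r S₁ o C) (GF B r t S₁ o (ctxL B r S₁ o C)) (bd n S₁))
    (I₂ : Good B t (ctxR B r S₁ o C) (GF B r t S₂ (o + S₁.size) (ctxR B r S₁ o C)) (bd n S₂)) :
    Good B t C (GF B r t (.node S₁ S₂) o C) (bd n (.node S₁ S₂)) := by
  classical
  set B' := trap B S₁ o C.A with hB'
  set x' := lt B r S₁ o C.A C.x with hx'
  set G₁ := GF B r t S₁ o (ctxL B r S₁ o C) with hG₁
  set G₂ := GF B r t S₂ (o + S₁.size) (ctxR B r S₁ o C) with hG₂
  let R3 : Vertex n → Prop := fun y => ∃ p ∈ C.F, wr (tset B p \ B') C.w y ≤ t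
  let R2 : Vertex n → Prop := fun y => wr B' x' y ≤ t
  have e3 : ∀ y, R3 y → GF B r t (.node S₁ S₂) o C y =
      (C.w, C.off + (bd n S₁ + bd n S₂ + rt C.w y)) := by
    intro y hy
    simp only [GF]
    rw [if_pos hy]
  have e2 : ∀ y, ¬ R3 y → R2 y → GF B r t (.node S₁ S₂) o C y = G₂ y := by
    intro y hy h2
    simp only [GF]
    rw [if_neg hy, if_pos h2]
  have e1 : ∀ y, ¬ R3 y → ¬ R2 y → GF B r t (.node S₁ S₂) o C y = G₁ y := by
    intro y hy h2
    simp only [GF]
    rw [if_neg hy, if_neg h2]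
  have hw : ∀ c, c ∉ B' → mix B' x' C.w c = C.w c := fun c hc => mix_notMem hc
  have hwr : ∀ p : ℕ × Finset (Fin n), ∀ y, wr (tset B (p.1, p.2 ∪ B')) (mix B' x' C.w) y =
      wr (tset B p \ B') C.w y := by
    intro p y
    rw [tset_union]
    exact wr_congr (fun c hc => hw c (mem_sdiff.mp hc).2) y
  have hess : ∀ p : ℕ × Finset (Fin n), ∀ g y, ess (tset B (p.1, p.2 ∪ B')) g (mix B' x' C.w) y =
      ess (tset B p \ B') g C.w y := by
    intro p g y
    rw [tset_union]
    exact ess_congr (fun c hc => hw c (mem_sdiff.mp hc).2) g y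
  have d2 : ∀ y, ¬ R3 y → Dom B t (ctxR B r S₁ o C) y := by
    intro y hy p hp
    simp only [ctxR, List.mem_map] at hp
    obtain ⟨q, hq, rfl⟩ := hp
    show t < wr (tset B (q.1, q.2 ∪ B')) (mix B' x' C.w) y
    rw [hwr]
    by_contra hlt
    exact hy ⟨q, hq, not_lt.mp hlt⟩
  have hown : tset B (o + S₁.size, cl B S₁ o C.A) = B' := rfl
  have d1 : ∀ y, ¬ R3 y → ¬ R2 y → Dom B t (ctxL B r S₁ o C) y := by
    intro y hy h2 p hp
    simp only [ctxL, List.mem_cons, List.mem_map] at hp
    rcases hp with rfl | ⟨q, hq, rfl⟩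
    · show t < wr (tset B (o + S₁.size, cl B S₁ o C.A)) (mix B' x' C.w) y
      rw [hown, wr_congr (w' := x') (fun c hc => mix_mem hc)]
      exact not_le.mp h2
    · show t < wr (tset B (q.1, q.2 ∪ B')) (mix B' x' C.w) y
      rw [hwr]
      by_contra hlt
      exact hy ⟨q, hq, not_lt.mp hlt⟩
  -- seeing the outer traps
  have s2 : ∀ y, ¬ R3 y → ∀ p ∈ C.F, t < ess (tset B p \ B') (G₂ y).1 C.w y := by
    intro y hy p hp
    have := I₂.sees y (d2 y hy) (p.1, p.2 ∪ B') (by
      simp only [ctxR, List.mem_map]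
      exact ⟨p, hp, rfl⟩)
    have h := hess p (G₂ y).1 y
    rw [← h]
    exact this
  have s1 : ∀ y, ¬ R3 y → ¬ R2 y → ∀ p ∈ C.F, t < ess (tset B p \ B') (G₁ y).1 C.w y := by
    intro y hy h2 p hp
    have := I₁.sees y (d1 y hy h2) (p.1, p.2 ∪ B') (by
      simp only [ctxL, List.mem_cons, List.mem_map]
      exact Or.inr ⟨p, hp, rfl⟩)
    have h := hess p (G₁ y).1 y
    rw [← h]
    exact this
  have s1' : ∀ y, ¬ R3 y → ¬ R2 y → t < ess B' (G₁ y).1 x' y := by
    intro y hy h2
    have := I₁.sees y (d1 y hy h2) (o + S₁.size, cl B S₁ o C.A) (List.mem_cons_self ..)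
    have h := ess_congr (D := B') (w := mix B' x' C.w) (w' := x')
      (fun c hc => mix_mem hc) (G₁ y).1 y
    rw [← h]
    exact this
  have hsub : ∀ D : Finset (Fin n), ∀ g y, ess (D \ B') g C.w y ≤ ess D g C.w y := by
    intro D g y
    exact card_le_card (filter_subset_filter _ sdiff_subset)
  have hbd : bd n (.node S₁ S₂) = bd n S₁ + bd n S₂ + n + 1 := rfl
  have off1 : (ctxL B r S₁ o C).off = C.off := rfl
  have off2 : (ctxR B r S₁ o C).off = C.off + bd n S₁ := rfl
  refine ⟨?_, ?_, ?_, ?_, ?_, ?_⟩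
  · intro y _ c hc
    by_cases h3 : R3 y
    · rw [e3 y h3]; exact hC c hc
    by_cases h2 : R2 y
    · rw [e2 y h3 h2, I₂.closed y (d2 y h3) c (mem_union_left _ hc)]
      show mix B' x' C.x c = C.x c
      exact mix_notMem fun hcB => (disjoint_left.mp (trap_disjoint B S₁ o C.A)) hcB hc
    · rw [e1 y h3 h2, I₁.closed y (d1 y h3 h2) c hc]
      rfl
  · intro y hy p hp
    by_cases h3 : R3 y
    · rw [e3 y h3]
      have : ess (tset B p) C.w C.w y = wr (tset B p) C.w y := by simp [ess, wr]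
      show t < ess (tset B p) C.w C.w y
      rw [this]
      exact hy p hp
    by_cases h2 : R2 y
    · rw [e2 y h3 h2]
      exact (s2 y h3 p hp).trans_le (hsub _ _ _)
    · rw [e1 y h3 h2]
      exact (s1 y h3 h2 p hp).trans_le (hsub _ _ _)
  · -- separation
    have k3 : ∀ y z, R3 y → ¬ R3 z → ∃ c, y c ≠ z c ∧
        C.w c = (GF B r t (.node S₁ S₂) o C z).1 c := by
      rintro y z ⟨p, hp, hy⟩ hz
      by_cases h2 : R2 z
      · obtain ⟨c, -, a, b, d⟩ := exists_sep hy (s2 z hz p hp)
        exact ⟨c, by rw [a]; exact fun h => b h.symm, by rw [e2 z hz h2]; exact d.symm⟩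
      · obtain ⟨c, -, a, b, d⟩ := exists_sep hy (s1 z hz h2 p hp)
        exact ⟨c, by rw [a]; exact fun h => b h.symm, by rw [e1 z hz h2]; exact d.symm⟩
    have k12 : ∀ y z, ¬ R3 y → ¬ R3 z → ¬ R2 y → R2 z → ∃ c, y c ≠ z c ∧
        (G₁ y).1 c = (G₂ z).1 c := by
      intro y z hy hz hy2 hz2
      obtain ⟨c, hcB, a, b, d⟩ := exists_sep hz2 (s1' y hy hy2)
      refine ⟨c, by rw [a]; exact b, ?_⟩
      rw [d, I₂.closed z (d2 z hz) c (mem_union_right _ hcB)]
      show x' c = mix B' x' C.x c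
      exact (mix_mem hcB).symm
    intro y z _ _ hne
    by_cases hy3 : R3 y
    · by_cases hz3 : R3 z
      · obtain ⟨c, hc⟩ := Function.ne_iff.mp hne
        exact ⟨c, hc, by rw [e3 y hy3, e3 z hz3]⟩
      · obtain ⟨c, hc, h⟩ := k3 y z hy3 hz3
        exact ⟨c, hc, by rw [e3 y hy3]; exact h⟩
    · by_cases hz3 : R3 z
      · obtain ⟨c, hc, h⟩ := k3 z y hz3 hy3
        exact ⟨c, hc.symm, by rw [e3 z hz3]; exact h.symm⟩
      · by_cases hy2 : R2 y
        · by_cases hz2 : R2 z
          · obtain ⟨c, hc, h⟩ := I₂.sep y z (d2 y hy3) (d2 z hz3) hne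
            exact ⟨c, hc, by rw [e2 y hy3 hy2, e2 z hz3 hz2]; exact h⟩
          · obtain ⟨c, hc, h⟩ := k12 z y hz3 hy3 hz2 hy2
            exact ⟨c, hc.symm, by rw [e2 y hy3 hy2, e1 z hz3 hz2]; exact h.symm⟩
        · by_cases hz2 : R2 z
          · obtain ⟨c, hc, h⟩ := k12 y z hy3 hz3 hy2 hz2
            exact ⟨c, hc, by rw [e1 y hy3 hy2, e2 z hz3 hz2]; exact h⟩
          · obtain ⟨c, hc, h⟩ := I₁.sep y z (d1 y hy3 hy2) (d1 z hz3 hz2) hne
            exact ⟨c, hc, by rw [e1 y hy3 hy2, e1 z hz3 hz2]; exact h⟩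
  · intro y c _ _ hc
    by_cases h3 : R3 y
    · rw [e3 y h3] at hc ⊢
      have h3' : R3 (nb y c) := by
        obtain ⟨p, hp, hy⟩ := h3
        exact ⟨p, hp, (wr_nb_le _ hc).trans hy⟩
      rw [e3 _ h3']
      have := rt_nb C.w y c hc
      show C.off + (bd n S₁ + bd n S₂ + rt C.w y) < C.off + (bd n S₁ + bd n S₂ + rt C.w (nb y c))
      omega
    by_cases h2 : R2 y
    · rw [e2 y h3 h2] at hc ⊢
      by_cases h3' : R3 (nb y c)
      · rw [e3 _ h3']
        have := I₂.hi y (d2 y h3)
        rw [off2] at this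
        show (G₂ y).2 < C.off + (bd n S₁ + bd n S₂ + rt C.w (nb y c))
        omega
      · have h2' : R2 (nb y c) := by
          refine (wr_nb_le' (g := (G₂ y).1) _ hc ?_).trans h2
          intro b hb
          rw [I₂.closed y (d2 y h3) b (mem_union_right _ hb)]
          exact mix_mem hb
        rw [e2 _ h3' h2']
        exact I₂.mono y c (d2 y h3) (d2 _ h3') hc
    · rw [e1 y h3 h2] at hc ⊢
      by_cases h3' : R3 (nb y c)
      · rw [e3 _ h3']
        have := I₁.hi y (d1 y h3 h2)
        rw [off1] at this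
        show (G₁ y).2 < C.off + (bd n S₁ + bd n S₂ + rt C.w (nb y c))
        omega
      · by_cases h2' : R2 (nb y c)
        · rw [e2 _ h3' h2']
          have a := I₁.hi y (d1 y h3 h2)
          have b := I₂.lo _ (d2 _ h3')
          rw [off1] at a
          rw [off2] at b
          omega
        · rw [e1 _ h3' h2']
          exact I₁.mono y c (d1 y h3 h2) (d1 _ h3' h2') hc
  · intro y _
    by_cases h3 : R3 y
    · rw [e3 y h3]; exact Nat.le_add_right _ _
    by_cases h2 : R2 y
    · rw [e2 y h3 h2]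
      have := I₂.lo y (d2 y h3)
      rw [off2] at this
      omega
    · rw [e1 y h3 h2]
      exact I₁.lo y (d1 y h3 h2)
  · intro y _
    by_cases h3 : R3 y
    · rw [e3 y h3, hbd]
      have := rt_le C.w y
      show C.off + (bd n S₁ + bd n S₂ + rt C.w y) < _
      omega
    by_cases h2 : R2 y
    · rw [e2 y h3 h2, hbd]
      have := I₂.hi y (d2 y h3)
      rw [off2] at this
      omega
    · rw [e1 y h3 h2, hbd]
      have := I₁.hi y (d1 y h3 h2)
      rw [off1] at this
      omega

theorem ctxL_compat (B : ℕ → Finset (Fin n)) (r : ℕ → Vertex n) (S₁ : Shape) (o : ℕ) (C : Ctx n)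
    (hC : ∀ c ∈ C.A, C.w c = C.x c) :
    ∀ c ∈ (ctxL B r S₁ o C).A, (ctxL B r S₁ o C).w c = (ctxL B r S₁ o C).x c := by
  intro c hc
  show mix _ _ C.w c = C.x c
  rw [mix_notMem fun h => (disjoint_left.mp (trap_disjoint B S₁ o C.A)) h hc]
  exact hC c hc

theorem ctxR_compat (B : ℕ → Finset (Fin n)) (r : ℕ → Vertex n) (S₁ : Shape) (o : ℕ) (C : Ctx n)
    (hC : ∀ c ∈ C.A, C.w c = C.x c) :
    ∀ c ∈ (ctxR B r S₁ o C).A, (ctxR B r S₁ o C).w c = (ctxR B r S₁ o C).x c := by
  intro c hc
  show mix _ _ C.w c = mix _ _ C.x c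
  by_cases h : c ∈ trap B S₁ o C.A
  · rw [mix_mem h, mix_mem h]
  · rw [mix_notMem h, mix_notMem h]
    rcases mem_union.mp hc with h' | h'
    · exact hC c h'
    · exact absurd h' h

/-- The recursion always produces a good structure. -/
theorem good (B : ℕ → Finset (Fin n)) (r : ℕ → Vertex n) (t : ℕ) : ∀ (S : Shape) (o : ℕ) (C : Ctx n),
    (∀ c ∈ C.A, C.w c = C.x c) → Good B t C (GF B r t S o C) (bd n S)
  | .leaf, o, C, hC => leaf_good B r t o C hC
  | .node S₁ S₂, o, C, hC =>
      node_good B r t S₁ S₂ o C hC (good B r t S₁ o _ (ctxL_compat B r S₁ o C hC))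
        (good B r t S₂ _ _ (ctxR_compat B r S₁ o C hC))

end Pool.Agent.MP4d246d.Rand
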